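import Pool.Agent.NH16.QF.ASMb

set_option autoImplicit false

/-!
# The main argument
-/

open Finset Filter Topology

namespace Pool.Agent.NH16.QF.ASM

/-- pigeonhole for the residue classes -/
lemma pigeon (r W : ℕ) (hW : 1 ≤ W) (D : Finset (Fin r → ℕ)) :
    ∃ cc ∈ Fintype.piFinset (fun _ : Fin r => range W),
      D.card ≤ W ^ r * (D.filter (fun h => (fun g => h g % W) = cc)).card := by
  classical
  by_contra hcon
  push Not at hcon
  have hmaps : ∀ h ∈ D, (fun g => h g % W) ∈ Fintype.piFinset (fun _ : Fin r => range W) := by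
    intro h _
    rw [Fintype.mem_piFinset]
    exact fun g => mem_range.2 (Nat.mod_lt _ hW)
  have h1 := card_eq_sum_card_fiberwise (f := fun (h : Fin r → ℕ) g => h g % W)
    (t := Fintype.piFinset (fun _ : Fin r => range W)) hmaps
  have hne : (Fintype.piFinset (fun _ : Fin r => range W)).Nonempty :=
    ⟨fun _ => 0, Fintype.mem_piFinset.2 fun _ => mem_range.2 hW⟩
  have h2 : ∑ cc ∈ Fintype.piFinset (fun _ : Fin r => range W),
      W ^ r * (D.filter (fun h => (fun g => h g % W) = cc)).card <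
      ∑ _cc ∈ Fintype.piFinset (fun _ : Fin r => range W), D.card :=
    sum_lt_sum_of_nonempty hne hcon
  rw [← mul_sum, sum_const, smul_eq_mul, Fintype.card_piFinset] at h2
  simp only [prod_const, card_univ, Fintype.card_fin, card_range] at h2
  rw [← h1] at h2
  exact lt_irrefl _ h2

lemma cop_congr {a x y W : ℕ} (h : x % W = y % W) (hc : Nat.Coprime (a + x) W) : Nat.Coprime (a + y) W := by
  have h1 : a + x ≡ a + y [MOD W] := Nat.ModEq.add_left a h
  have h2 := h1.gcd_eq
  unfold Nat.Coprime at hc ⊢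
  rw [← h2, hc]

open Classical in
theorem t_ASM (hT : S_THM) (hB : S_BOX) (hR : S_RGH) : S_ASM := by
  intro r M hr hM ε lam hε hlam
  obtain ⟨K, W, δ, c, hK, hW, hδ, hδ1, hc, hT⟩ := hT r M hr hM
  have hMr : M < r := by omega
  have hrK : r ≤ r * K := Nat.le_mul_of_pos_right r hK
  set s : ℕ := r * K - M with hs
  have hsum : M + 1 + s = r * K + 1 := by omega
  obtain ⟨C1, hC1, hR⟩ := hR (M + 1 + 2 * s) δ lam hδ hlam
  have hW0 : (0 : ℝ) < W := by exact_mod_cast hW
  set ε1 : ℝ := ε / (W : ℝ) ^ r with hε1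
  have hε10 : 0 < ε1 := by positivity
  set β : ℝ := ε1 ^ (K ^ r) with hβ
  have hβ0 : 0 < β := by positivity
  set C2 : ℝ := 2 ^ r * (K : ℝ) ^ r with hC2
  have hK0 : (0 : ℝ) < K := by exact_mod_cast hK
  have hC20 : 0 < C2 := by positivity
  set θ : ℝ := c * β / (8 * W * C2 * (1 + C1)) with hθ
  have hθ0 : 0 < θ := by positivity
  refine ⟨θ ^ 2, by positivity, ?_⟩
  have tL : Tendsto (fun N : ℕ => lam * Real.log (N : ℝ)) atTop atTop :=
    (Real.tendsto_log_atTop.comp tendsto_natCast_atTop_atTop).const_mul_atTop hlam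
  filter_upwards [hT, hR, eventually_gt_atTop 1024,
    tL.eventually_ge_atTop (max (W : ℝ) (4 * W * ((r * K + 1 : ℕ) : ℝ) ^ 2 / β + 1))] with N hTN hRN hN1 hN2
    H hH1 hH2 D hD hadm hbad
  by_contra hcon
  rw [not_le] at hcon
  set L : ℝ := Real.log N with hL
  have hL0 : 0 < L := Real.log_pos (by exact_mod_cast (by omega : 1 < N))
  have hHW : (W : ℝ) ≤ H := (le_max_left _ _).trans (hN2.trans hH1)
  have hHW' : W ≤ H := by exact_mod_cast hHW
  have hH0 : (0 : ℝ) < H := lt_of_lt_of_le hW0 hHW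
  have hHpos : 1 ≤ H := hW.trans hHW'
  have hHbig : 4 * W * ((r * K + 1 : ℕ) : ℝ) ^ 2 / β ≤ H := by
    have := (le_max_right _ _).trans (hN2.trans hH1)
    linarith
  have hN0 : (0 : ℝ) < N := by exact_mod_cast (by omega : 0 < N)
  -- the residue classes
  obtain ⟨cc, hcc, hpig⟩ := pigeon r W hW D
  set Dc : Finset (Fin r → ℕ) := D.filter (fun h => (fun g => h g % W) = cc) with hDc
  have hDcε : ε1 ≤ (Dc.card : ℝ) / (H : ℝ) ^ r := by
    rw [hε1, div_le_div_iff₀ (by positivity) (by positivity)]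
    have h1 : (D.card : ℝ) ≤ (W : ℝ) ^ r * Dc.card := by exact_mod_cast hpig
    nlinarith
  have hDcD : Dc ⊆ D := filter_subset _ _
  have hDcne : Dc.Nonempty := by
    rw [nonempty_iff_ne_empty]
    intro h
    rw [h, card_empty, Nat.cast_zero, zero_div] at hDcε
    linarith
  obtain ⟨h0, hh0⟩ := hDcne
  obtain ⟨a, ha⟩ := crt W h0 (hadm h0 (hDcD hh0)) hW
  have hmod : ∀ h ∈ Dc, ∀ g, h g % W = h0 g % W := by
    intro h hh g
    have e1 : h g % W = cc g := congrFun (mem_filter.1 hh).2 g
    have e2 : h0 g % W = cc g := congrFun (mem_filter.1 hh0).2 g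
    rw [e1, e2]
  set g0 : Fin r := ⟨0, hr⟩ with hg0
  -- the boxes
  have hBox := hB r K H Dc hK hHpos (hDcD.trans hD)
  set B := (Fintype.piFinset (fun _ : Fin r => Fintype.piFinset (fun _ : Fin K => Icc 1 H))).filter
      (fun x : Fin r → Fin K → ℕ => ∀ σ : Fin r → Fin K, (fun g => x g (σ g)) ∈ Dc) with hBdef
  have hBcard : β * (H : ℝ) ^ (r * K) ≤ (B.card : ℝ) := by
    refine le_trans ?_ hBox
    apply mul_le_mul_of_nonneg_right _ (by positivity)
    exact pow_le_pow_left₀ hε10.le hDcε _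
  set X0 := (Icc 1 H).filter (fun x => x % W = h0 g0 % W) with hX0
  have hX0card : (H : ℝ) / (2 * W) ≤ (X0.card : ℝ) := cntmod W _ H hW (Nat.mod_lt _ hW) hHW'
  set Arr := (Fintype.piFinset (fun _ : Option (Fin r × Fin K) => Icc 1 H)).filter (fun y =>
    y none % W = h0 g0 % W ∧ ∀ σ : Fin r → Fin K, (fun g => y (some (g, σ g))) ∈ Dc) with hArr
  have hArrcard : X0.card * B.card ≤ Arr.card := by
    rw [← card_product]
    apply card_le_card_of_injOn (fun z o => o.elim z.1 (fun t => z.2 t.1 t.2))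
    · intro z hz
      rw [mem_coe, mem_product] at hz
      rw [mem_coe, hArr, mem_filter, Fintype.mem_piFinset]
      have hz1 := mem_filter.1 hz.1
      have hz2 := mem_filter.1 hz.2
      refine ⟨fun o => ?_, hz1.2, fun σ => hz2.2 σ⟩
      cases o with
      | none => exact hz1.1
      | some t => exact Fintype.mem_piFinset.1 (Fintype.mem_piFinset.1 hz2.1 t.1) t.2
    · intro z _ z' _ h
      have e1 := congrFun h none
      simp only [Option.elim] at e1
      have e2 : z.2 = z'.2 := by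
        funext g k
        exact congrFun h (some (g, k))
      exact Prod.ext e1 e2
  set Arr' := Arr.filter (fun y => Function.Injective y) with hArr'
  have hArr'card : β / (4 * W) * (H : ℝ) ^ (r * K + 1) ≤ (Arr'.card : ℝ) := by
    have h1 : Arr.card ≤ Arr'.card + ((Fintype.piFinset (fun _ : Option (Fin r × Fin K) => Icc 1 H)).filter
        (fun y => ¬ Function.Injective y)).card := by
      rw [← card_filter_add_card_filter_not (s := Arr) (fun y => Function.Injective y)]
      apply Nat.add_le_add_left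
      apply card_le_card
      intro y hy
      rw [mem_filter] at hy ⊢
      exact ⟨(mem_filter.1 hy.1).1, hy.2⟩
    have h2 := noninj (ι := Option (Fin r × Fin K)) H
    have h3 : Fintype.card (Option (Fin r × Fin K)) = r * K + 1 := by
      rw [Fintype.card_option, Fintype.card_prod, Fintype.card_fin, Fintype.card_fin]
    rw [h3, Nat.add_sub_cancel] at h2
    have h4 : (X0.card : ℝ) * B.card ≤ (Arr'.card : ℝ) + ((r * K + 1 : ℕ) : ℝ) ^ 2 * (H : ℝ) ^ (r * K) := by
      have h5 : ((X0.card * B.card : ℕ) : ℝ) ≤ ((Arr'.card + ((Fintype.piFinset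
          (fun _ : Option (Fin r × Fin K) => Icc 1 H)).filter (fun y => ¬ Function.Injective y)).card : ℕ) : ℝ) := by
        exact_mod_cast hArrcard.trans h1
      push_cast at h5
      push_cast at h2
      push_cast
      linarith
    have h5 : (H : ℝ) / (2 * W) * (β * (H : ℝ) ^ (r * K)) ≤ (X0.card : ℝ) * B.card :=
      mul_le_mul hX0card hBcard (by positivity) (by positivity)
    have h6 : ((r * K + 1 : ℕ) : ℝ) ^ 2 ≤ β / (4 * W) * H := by
      rw [div_le_iff₀ hβ0] at hHbig
      rw [div_mul_eq_mul_div, le_div_iff₀ (by positivity)]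
      linarith
    have h7 : ((r * K + 1 : ℕ) : ℝ) ^ 2 * (H : ℝ) ^ (r * K) ≤ β / (4 * W) * H * (H : ℝ) ^ (r * K) :=
      mul_le_mul_of_nonneg_right h6 (by positivity)
    have h8 : (H : ℝ) / (2 * W) * (β * (H : ℝ) ^ (r * K)) =
        β / (4 * W) * H * (H : ℝ) ^ (r * K) + β / (4 * W) * H * (H : ℝ) ^ (r * K) := by
      field_simp
      ring
    rw [pow_succ, ← mul_assoc, mul_right_comm]
    linarith
  -- lower bound
  set Nf := (Icc 1 N).filter (fun n : ℕ => (N : ℝ) / 32 ≤ n) with hNf
  set z : ℝ := δ * L with hz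
  set S : (Option (Fin r × Fin K) → ℕ) → Finset ℕ := fun y => (Icc 1 N).filter (fun n : ℕ => (N : ℝ) / 32 ≤ n ∧
      Rgh z (n + y none) ∧ (∀ g k, Rgh z (n + y (some (g, k)))) ∧
      M + 1 ≤ (univ.filter (fun g : Fin r => ∃ k, (n + y (some (g, k))).Prime)).card) with hS
  have hlow : ∀ y ∈ Arr', c * (N / L ^ (r * K + 1)) ≤ ((S y).card : ℝ) := by
    intro y hy
    have hy1 := mem_filter.1 hy
    have hy2 := mem_filter.1 hy1.1
    have hyH : ∀ j, y j ≤ H := fun j => (mem_Icc.1 (Fintype.mem_piFinset.1 hy2.1 j)).2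
    apply hTN (y none) a (fun g k => y (some (g, k)))
    · have := hyH none
      omega
    · intro g k
      have := hyH (some (g, k))
      omega
    · intro g k h
      have := hy1.2 h
      simp at this
    · intro u v h
      have := hy1.2 h
      simp only [Option.some.injEq, Prod.mk.injEq] at this
      exact Prod.ext this.1 this.2
    · exact cop_congr hy2.2.1.symm (ha g0)
    · intro g k
      exact cop_congr (hmod _ (hy2.2.2 (fun _ => k)) g).symm (ha g)
  have hlow2 : (Arr'.card : ℝ) * (c * (N / L ^ (r * K + 1))) ≤ ∑ y ∈ Arr', ((S y).card : ℝ) := by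
    rw [← nsmul_eq_mul, ← sum_const]
    exact sum_le_sum hlow
  -- upper bound
  set κ : ℝ := θ ^ 2 with hκ
  set Bad : (I : Finset (Fin r)) → Finset ({i // i ∈ I} → ℕ) := fun I =>
    (Fintype.piFinset (fun _ : {i // i ∈ I} => Icc 1 H)).filter (fun w =>
      (((Icc 1 N).filter (fun n => ∀ i, (n + w i).Prime)).card : ℝ) ≤ κ * (N / L ^ (M + 1))) with hBaddef
  set cond : Finset (Fin r) → (Fin r → Fin K) → ℕ → (Option (Fin r × Fin K) → ℕ) → Prop := fun I σ n y =>
    (∀ j, Rgh z (n + y j)) ∧ (∀ g ∈ I, (n + y (some (g, σ g))).Prime) ∧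
      (fun i : {i // i ∈ I} => y (some (i.1, σ i.1))) ∈ Bad I with hcond
  have hex : ∀ y ∈ Arr', ∀ n ∈ S y, ∃ I ∈ powersetCard (M + 1) (univ : Finset (Fin r)), ∃ σ : Fin r → Fin K,
      cond I σ n y := by
    intro y hy n hn
    have hy1 := mem_filter.1 hy
    have hy2 := mem_filter.1 hy1.1
    have hn2 := (mem_filter.1 hn).2
    obtain ⟨I, hI1, hI2⟩ := exists_subset_card_eq hn2.2.2.2
    have hex : ∀ g : Fin r, ∃ k : Fin K, g ∈ I → (n + y (some (g, k))).Prime := by
      intro g
      by_cases hg : g ∈ I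
      · obtain ⟨k, hk⟩ := (mem_filter.1 (hI1 hg)).2
        exact ⟨k, fun _ => hk⟩
      · exact ⟨⟨0, hK⟩, fun h => absurd h hg⟩
    choose σ hσ using hex
    refine ⟨I, mem_powersetCard.2 ⟨subset_univ _, hI2⟩, σ, ?_, fun g hg => hσ g hg, ?_⟩
    · intro j
      cases j with
      | none => exact hn2.2.1
      | some t => exact hn2.2.2.1 t.1 t.2
    · rw [hBaddef]
      simp only
      rw [mem_filter, Fintype.mem_piFinset]
      refine ⟨fun i => Fintype.mem_piFinset.1 hy2.1 _, ?_⟩
      have hb := hbad _ (hDcD (hy2.2.2 σ)) I hI2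
      refine le_trans (le_of_eq ?_) hb.le
      congr 2
      apply filter_congr
      intro n _
      exact ⟨fun h i hi => h ⟨i, hi⟩, fun h i => h i.1 i.2⟩
  have hup : ∑ y ∈ Arr', ((S y).card : ℝ) ≤ ∑ I ∈ powersetCard (M + 1) (univ : Finset (Fin r)),
      ∑ σ : Fin r → Fin K, ∑ n ∈ Nf, (((Fintype.piFinset (fun _ : Option (Fin r × Fin K) => Icc 1 H)).filter
        (fun y => cond I σ n y)).card : ℝ) := by
    have h1 : ∀ y ∈ Arr', ((S y).card : ℝ) ≤ ∑ n ∈ Nf, ∑ I ∈ powersetCard (M + 1) (univ : Finset (Fin r)),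
        ∑ σ : Fin r → Fin K, (if cond I σ n y then (1 : ℝ) else 0) := by
      intro y hy
      have h2 : ((S y).card : ℝ) = ∑ n ∈ Nf, (if n ∈ S y then (1 : ℝ) else 0) := by
        rw [sum_ite_mem, sum_const, nsmul_eq_mul, mul_one]
        congr 2
        symm
        apply inter_eq_right.2
        intro n hn
        rw [hNf, mem_filter]
        exact ⟨(mem_filter.1 hn).1, (mem_filter.1 hn).2.1⟩
      rw [h2]
      apply sum_le_sum
      intro n _
      split_ifs with hn
      · obtain ⟨I, hI, σ, hσ⟩ := hex y hy n hn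
        calc (1 : ℝ) = (if cond I σ n y then (1 : ℝ) else 0) := by rw [if_pos hσ]
          _ ≤ ∑ σ : Fin r → Fin K, (if cond I σ n y then (1 : ℝ) else 0) :=
            single_le_sum (f := fun σ : Fin r → Fin K => (if cond I σ n y then (1 : ℝ) else 0))
              (fun σ _ => by split_ifs <;> norm_num) (mem_univ σ)
          _ ≤ _ := single_le_sum (f := fun I => ∑ σ : Fin r → Fin K, (if cond I σ n y then (1 : ℝ) else 0))
              (fun I _ => sum_nonneg fun σ _ => by split_ifs <;> norm_num) hI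
      · exact sum_nonneg fun I _ => sum_nonneg fun σ _ => by split_ifs <;> norm_num
    calc ∑ y ∈ Arr', ((S y).card : ℝ) ≤ ∑ y ∈ Arr', ∑ n ∈ Nf, ∑ I ∈ powersetCard (M + 1) (univ : Finset (Fin r)),
          ∑ σ : Fin r → Fin K, (if cond I σ n y then (1 : ℝ) else 0) := sum_le_sum h1
      _ = ∑ I ∈ powersetCard (M + 1) (univ : Finset (Fin r)), ∑ σ : Fin r → Fin K, ∑ n ∈ Nf,
          ∑ y ∈ Arr', (if cond I σ n y then (1 : ℝ) else 0) := by
        rw [sum_comm]
        have e1 : ∀ n ∈ Nf, ∑ y ∈ Arr', ∑ I ∈ powersetCard (M + 1) (univ : Finset (Fin r)),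
            ∑ σ : Fin r → Fin K, (if cond I σ n y then (1 : ℝ) else 0) =
            ∑ I ∈ powersetCard (M + 1) (univ : Finset (Fin r)), ∑ σ : Fin r → Fin K,
              ∑ y ∈ Arr', (if cond I σ n y then (1 : ℝ) else 0) := by
          intro n _
          rw [sum_comm]
          exact sum_congr rfl fun I _ => sum_comm
        rw [sum_congr rfl e1, sum_comm]
        exact sum_congr rfl fun I _ => sum_comm
      _ ≤ _ := by
        apply sum_le_sum
        intro I _
        apply sum_le_sum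
        intro σ _
        apply sum_le_sum
        intro n _
        rw [← sum_filter, sum_const, nsmul_eq_mul, mul_one]
        have : (Arr'.filter (fun y => cond I σ n y)).card ≤
            ((Fintype.piFinset (fun _ : Option (Fin r × Fin K) => Icc 1 H)).filter (fun y => cond I σ n y)).card := by
          apply card_le_card
          intro y hy
          rw [mem_filter] at hy ⊢
          exact ⟨(mem_filter.1 (mem_filter.1 hy.1).1).1, hy.2⟩
        exact_mod_cast this
  have hHN : H ≤ N := by omega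
  have hRN' := hRN H hH1 hHN
  have hupI : ∀ I ∈ powersetCard (M + 1) (univ : Finset (Fin r)), ∀ σ : Fin r → Fin K,
      ∑ n ∈ Nf, (((Fintype.piFinset (fun _ : Option (Fin r × Fin K) => Icc 1 H)).filter
        (fun y => cond I σ n y)).card : ℝ) ≤ N * ((H : ℝ) / L) ^ (M + 1 + s) * (κ / θ + θ * C1) := by
    intro I hI σ
    have hIc := (mem_powersetCard.1 hI).2
    have h1 := ups (s := s) hN1 (by omega : 0 < H) hδ1 hθ0 I hIc (Bad I) (κ := κ) (C1 := C1) (by
      intro w hw
      rw [hBaddef] at hw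
      simp only at hw
      rw [mem_filter, Fintype.mem_piFinset] at hw
      exact hw) (by positivity) hRN'
    refine le_trans ?_ h1
    apply sum_le_sum
    intro n _
    have h2 := up1 (z := z) (H := H) n I σ hIc (Bad I)
    exact_mod_cast h2
  have hupT : ∑ y ∈ Arr', ((S y).card : ℝ) ≤ C2 * (N * ((H : ℝ) / L) ^ (M + 1 + s) * (κ / θ + θ * C1)) := by
    refine hup.trans ?_
    calc _ ≤ ∑ I ∈ powersetCard (M + 1) (univ : Finset (Fin r)), ∑ _σ : Fin r → Fin K,
          N * ((H : ℝ) / L) ^ (M + 1 + s) * (κ / θ + θ * C1) :=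
          sum_le_sum fun I hI => sum_le_sum fun σ _ => hupI I hI σ
      _ = (powersetCard (M + 1) (univ : Finset (Fin r))).card * ((K : ℝ) ^ r *
          (N * ((H : ℝ) / L) ^ (M + 1 + s) * (κ / θ + θ * C1))) := by
        rw [sum_const, nsmul_eq_mul, sum_const, nsmul_eq_mul, card_univ, Fintype.card_fun, Fintype.card_fin,
          Fintype.card_fin]
        push_cast
        ring
      _ ≤ 2 ^ r * ((K : ℝ) ^ r * (N * ((H : ℝ) / L) ^ (M + 1 + s) * (κ / θ + θ * C1))) := by
        apply mul_le_mul_of_nonneg_right _ (by positivity)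
        have h1 : (powersetCard (M + 1) (univ : Finset (Fin r))).card ≤ 2 ^ r := by
          rw [card_powersetCard, card_univ, Fintype.card_fin]
          exact Nat.choose_le_two_pow r (M + 1)
        exact_mod_cast h1
      _ = _ := by rw [hC2]; ring
  -- the end
  have hfin := hlow2.trans hupT
  have hY : 0 < N * ((H : ℝ) / L) ^ (r * K + 1) := by positivity
  have e1 : κ / θ + θ * C1 = θ * (1 + C1) := by
    rw [hκ]
    field_simp
  rw [hsum, e1] at hfin
  have h1 : β / (4 * W) * (H : ℝ) ^ (r * K + 1) * (c * (N / L ^ (r * K + 1))) ≤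
      (Arr'.card : ℝ) * (c * (N / L ^ (r * K + 1))) := mul_le_mul_of_nonneg_right hArr'card (by positivity)
  have e2 : β / (4 * W) * (H : ℝ) ^ (r * K + 1) * (c * (N / L ^ (r * K + 1))) =
      c * β / (4 * W) * (N * ((H : ℝ) / L) ^ (r * K + 1)) := by
    rw [div_pow]; ring
  have e3 : C2 * (N * ((H : ℝ) / L) ^ (r * K + 1) * (θ * (1 + C1))) =
      c * β / (8 * W) * (N * ((H : ℝ) / L) ^ (r * K + 1)) := by
    rw [hθ]
    field_simp
  rw [e3] at hfin
  rw [e2] at h1
  have h2 : c * β / (4 * W) = 2 * (c * β / (8 * W)) := by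
    field_simp
    ring
  rw [h2] at h1
  have h3 : 0 < c * β / (8 * W) * (N * ((H : ℝ) / L) ^ (r * K + 1)) := by positivity
  nlinarith

end Pool.Agent.NH16.QF.ASM

namespace Pool.Agent.NH16.QF

theorem t_ASM (hT : S_THM) (hB : S_BOX) (hR : S_RGH) : S_ASM := ASM.t_ASM hT hB hR

end Pool.Agent.NH16.QF
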