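import Mathlib
import Pool.Agent.H387R2.UDefs
import Pool.Agent.H387R2.MBDefs

/-!
Project QF (helper16): almost all sets of `r` short shifts contain `5 r / 18` shifts with the right order of
magnitude of prime tuples, at every scale `H ≥ λ log N`.  Statements of the modules, as propositions.
-/

set_option autoImplicit false

open Finset Filter Topology

namespace Pool.Agent.NH16.QF

open Pool.Agent.H387R2.Uni (CT Adm nuT locT)
open Pool.Agent.H387R2.MB (piN)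

/-- `m` has no prime factor `p` with `log p ≤ z` -/
def Rgh (z : ℝ) (m : ℕ) : Prop := ∀ p : ℕ, p.Prime → Real.log p ≤ z → ¬ p ∣ m

open Classical in
/-- QF-1: the coloured theorem for `r` classes of `K` shifts each, in a class modulo `W` -/
def S_THM : Prop := ∀ r M : ℕ, 1 ≤ r → 18 * M < 5 * r → ∃ (K W : ℕ) (δ c : ℝ), 1 ≤ K ∧ 1 ≤ W ∧ 0 < δ ∧ δ ≤ 1 / 2 ∧
  0 < c ∧ ∀ᶠ N : ℕ in atTop, ∀ (x0 a : ℕ) (x : Fin r → Fin K → ℕ), 100 * x0 ≤ N → (∀ g k, 100 * x g k ≤ N) →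
    (∀ g k, x g k ≠ x0) → Function.Injective (fun z : Fin r × Fin K => x z.1 z.2) →
    Nat.Coprime (a + x0) W → (∀ g k, Nat.Coprime (a + x g k) W) →
    c * (N / Real.log N ^ (r * K + 1)) ≤ (((Icc 1 N).filter (fun n : ℕ => (N : ℝ) / 32 ≤ n ∧
      Rgh (δ * Real.log N) (n + x0) ∧ (∀ g k, Rgh (δ * Real.log N) (n + x g k)) ∧
      M + 1 ≤ (univ.filter (fun g : Fin r => ∃ k, (n + x g k).Prime)).card)).card : ℝ)

open Classical in
/-- QF-2: dense sets of vectors contain many boxes (counting form of Erdős's theorem) -/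
def S_BOX : Prop := ∀ (r K H : ℕ) (D : Finset (Fin r → ℕ)), 1 ≤ K → 1 ≤ H →
  D ⊆ Fintype.piFinset (fun _ : Fin r => Icc 1 H) →
  ((D.card : ℝ) / (H : ℝ) ^ r) ^ (K ^ r) * (H : ℝ) ^ (r * K) ≤
    (((Fintype.piFinset (fun _ : Fin r => Fintype.piFinset (fun _ : Fin K => Icc 1 H))).filter
      (fun x : Fin r → Fin K → ℕ => ∀ σ : Fin r → Fin K, (fun g => x g (σ g)) ∈ D)).card : ℝ)

open Classical in
/-- QF-3: moments of the number of rough integers in short intervals -/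
def S_RGH : Prop := ∀ (q : ℕ) (δ lam : ℝ), 0 < δ → 0 < lam → ∃ C : ℝ, 0 < C ∧ ∀ᶠ N : ℕ in atTop, ∀ H : ℕ,
  lam * Real.log N ≤ H → H ≤ N →
  ∑ n ∈ Icc 1 N, (((Icc 1 H).filter (fun x => Rgh (δ * Real.log N) (n + x))).card : ℝ) ^ q ≤
    C * N * ((H : ℝ) / Real.log N) ^ q

open Classical in
/-- QF-4: the main argument, for admissible vectors of shifts -/
def S_ASM : Prop := ∀ r M : ℕ, 1 ≤ r → 18 * M < 5 * r → ∀ ε lam : ℝ, 0 < ε → 0 < lam → ∃ κ : ℝ, 0 < κ ∧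
  ∀ᶠ N : ℕ in atTop, ∀ H : ℕ, lam * Real.log N ≤ H → 100 * H ≤ N →
  ∀ D : Finset (Fin r → ℕ), D ⊆ Fintype.piFinset (fun _ : Fin r => Icc 1 H) →
    (∀ h ∈ D, ∀ p : ℕ, p.Prime → ∃ a : ℕ, ∀ i, ¬ p ∣ a + h i) →
    (∀ h ∈ D, ∀ I : Finset (Fin r), I.card = M + 1 →
      (((Icc 1 N).filter (fun n => ∀ i ∈ I, (n + h i).Prime)).card : ℝ) < κ * (N / Real.log N ^ (M + 1))) →
    (D.card : ℝ) ≤ ε * (H : ℝ) ^ r

/-- QF-5: the average of the singular series over the subsets of `{1, ..., H}` is bounded -/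
def S_SNG : Prop := ∀ j : ℕ, ∃ C : ℝ, 0 < C ∧ ∀ H : ℕ, ∑ T ∈ (Icc 1 H).powersetCard j, CT T ≤ C * (H : ℝ) ^ j

open Classical in
/-- QF-6: the final theorem.  All but few `r`-element subsets `A` of `{1, ..., H}` have the property that every
nonempty admissible subset `T` of `A` has a subset `I` with `|I| ≥ 5 |T| / 18` for which the number of the prime
tuples is at least `κ` times the prediction. -/
def S_FIN : Prop := ∀ r : ℕ, ∀ ε lam : ℝ, 0 < ε → 0 < lam → ∃ κ : ℝ, 0 < κ ∧ ∀ᶠ N : ℕ in atTop, ∀ H : ℕ,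
  lam * Real.log N ≤ H → 100 * H ≤ N →
  ((((Icc 1 H).powersetCard r).filter (fun A => ∃ T ⊆ A, T.Nonempty ∧ Adm T ∧ ∀ I ⊆ T, 5 * T.card ≤ 18 * I.card →
    (piN N I : ℝ) < κ * (CT I * (N / Real.log N ^ I.card)))).card : ℝ) ≤ ε * (H : ℝ) ^ r

end Pool.Agent.NH16.QF
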