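import Mathlib
import Pool.Agent.NH16.QF.Stm

set_option autoImplicit false

/-!
# Auxiliary lemmas for the main argument
-/

open Finset Filter Topology

namespace Pool.Agent.NH16.QF.ASM

/-- a shift of an admissible vector is prime to `W` -/
lemma crt (W : ℕ) {r : ℕ} (h : Fin r → ℕ) (hadm : ∀ p : ℕ, p.Prime → ∃ a : ℕ, ∀ i, ¬ p ∣ a + h i) (hW : 1 ≤ W) :
    ∃ a : ℕ, ∀ i, Nat.Coprime (a + h i) W := by
  classical
  choose! f hf using hadm
  have hs : ∀ i ∈ W.primeFactors, (fun p : ℕ => p) i ≠ 0 := fun p hp => (Nat.prime_of_mem_primeFactors hp).pos.ne'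
  have pp : Set.Pairwise (↑W.primeFactors) (Function.onFun Nat.Coprime (fun p : ℕ => p)) := by
    intro p hp q hq hpq
    exact (Nat.coprime_primes (Nat.prime_of_mem_primeFactors hp) (Nat.prime_of_mem_primeFactors hq)).2 hpq
  obtain ⟨k, hk⟩ := Nat.chineseRemainderOfFinset f (fun p : ℕ => p) W.primeFactors hs pp
  refine ⟨k, fun i => ?_⟩
  rw [Nat.coprime_iff_gcd_eq_one]
  by_contra hne
  obtain ⟨p, hp, hd⟩ := Nat.exists_prime_and_dvd hne
  have h1 : p ∣ k + h i := hd.trans (Nat.gcd_dvd_left _ _)
  have h2 : p ∣ W := hd.trans (Nat.gcd_dvd_right _ _)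
  have h3 : p ∈ W.primeFactors := Nat.mem_primeFactors.2 ⟨hp, h2, by omega⟩
  have h4 := hk p h3
  exact hf p hp i ((Nat.ModEq.dvd_iff (Nat.ModEq.add_right (h i) h4) dvd_rfl).1 h1)

/-- the integers of a residue class -/
lemma cntmod (W c H : ℕ) (hW : 1 ≤ W) (hc : c < W) (hH : W ≤ H) :
    (H : ℝ) / (2 * W) ≤ (((Icc 1 H).filter (fun x => x % W = c)).card : ℝ) := by
  have hW0 : (0 : ℝ) < W := by exact_mod_cast hW
  have h1 : (range (H / W)).card ≤ ((Icc 1 H).filter (fun x => x % W = c)).card := by
    apply card_le_card_of_injOn (fun j => j * W + (if c = 0 then W else c))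
    · intro j hj
      rw [mem_coe, mem_range] at hj
      rw [mem_coe, mem_filter, mem_Icc]
      have hj2 : (j + 1) * W ≤ H := (Nat.mul_le_mul_right W hj).trans (Nat.div_mul_le_self H W)
      have hj3 : (j + 1) * W = j * W + W := by ring
      dsimp only
      split_ifs with h
      · refine ⟨⟨by omega, by omega⟩, ?_⟩
        rw [show j * W + W = (j + 1) * W by ring, Nat.mul_mod_left, h]
      · refine ⟨⟨by omega, by omega⟩, ?_⟩
        rw [Nat.add_comm, Nat.add_mul_mod_self_right, Nat.mod_eq_of_lt hc]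
    · intro j _ j' _ h
      simp only [add_left_inj] at h
      exact Nat.eq_of_mul_eq_mul_right hW h
  rw [card_range] at h1
  have h2 : (H : ℝ) / (2 * W) ≤ ((H / W : ℕ) : ℝ) := by
    have h3 : H < (H / W + 1) * W := by
      have := Nat.lt_div_mul_add (a := H) hW
      calc H < H / W * W + W := this
        _ = _ := by ring
    have h4 : 1 ≤ H / W := (Nat.one_le_div_iff hW).2 hH
    have h3' : (H : ℝ) < (((H / W : ℕ) : ℝ) + 1) * W := by exact_mod_cast h3
    have h4' : (1 : ℝ) ≤ ((H / W : ℕ) : ℝ) := by exact_mod_cast h4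
    rw [div_le_iff₀ (by positivity)]
    nlinarith
  exact h2.trans (by exact_mod_cast h1)

/-- functions with two equal values are few -/
lemma noninj {ι : Type} [Fintype ι] [DecidableEq ι] (H : ℕ) :
    (((Fintype.piFinset (fun _ : ι => Icc 1 H)).filter (fun y => ¬ Function.Injective y)).card : ℝ) ≤
      (Fintype.card ι : ℝ) ^ 2 * (H : ℝ) ^ (Fintype.card ι - 1) := by
  classical
  have h1 : (Fintype.piFinset (fun _ : ι => Icc 1 H)).filter (fun y => ¬ Function.Injective y) ⊆
      (univ : Finset (ι × ι)).biUnion (fun z => (Fintype.piFinset (fun _ : ι => Icc 1 H)).filter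
        (fun y => z.1 ≠ z.2 ∧ y z.1 = y z.2)) := by
    intro y hy
    rw [mem_filter] at hy
    obtain ⟨hy1, hy2⟩ := hy
    rw [Function.Injective] at hy2
    push Not at hy2
    obtain ⟨i, j, hij, hne⟩ := hy2
    rw [mem_biUnion]
    exact ⟨(i, j), mem_univ _, mem_filter.2 ⟨hy1, hne, hij⟩⟩
  have h2 : ∀ z : ι × ι, ((Fintype.piFinset (fun _ : ι => Icc 1 H)).filter
      (fun y => z.1 ≠ z.2 ∧ y z.1 = y z.2)).card ≤ H ^ (Fintype.card ι - 1) := by
    intro z
    have h3 : ((Fintype.piFinset (fun _ : ι => Icc 1 H)).filter (fun y => z.1 ≠ z.2 ∧ y z.1 = y z.2)).card ≤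
        (Fintype.piFinset (fun _ : {i : ι // i ≠ z.2} => Icc 1 H)).card := by
      apply card_le_card_of_injOn (fun y i => y i.1)
      · intro y hy
        rw [mem_coe, mem_filter, Fintype.mem_piFinset] at hy
        rw [mem_coe, Fintype.mem_piFinset]
        exact fun i => hy.1 i.1
      · intro y hy y' hy' h
        rw [mem_coe, mem_filter] at hy hy'
        funext i
        by_cases hi : i = z.2
        · have e1 := congrFun h ⟨z.1, hy.2.1⟩
          simp only at e1
          rw [hi, ← hy.2.2, ← hy'.2.2, e1]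
        · exact congrFun h ⟨i, hi⟩
    refine h3.trans (le_of_eq ?_)
    rw [Fintype.card_piFinset]
    simp only [Nat.card_Icc, add_tsub_cancel_right, prod_const, card_univ]
    congr 1
    rw [Fintype.card_subtype_compl, Fintype.card_subtype_eq]
  have h4 : ((Fintype.piFinset (fun _ : ι => Icc 1 H)).filter (fun y => ¬ Function.Injective y)).card ≤
      Fintype.card ι ^ 2 * H ^ (Fintype.card ι - 1) := by
    refine (card_le_card h1).trans (card_biUnion_le.trans ?_)
    refine (sum_le_sum fun z _ => h2 z).trans (le_of_eq ?_)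
    rw [sum_const, card_univ, Fintype.card_prod, smul_eq_mul, sq]
  exact_mod_cast h4

/-- counting functions with values in `R` and some coordinates in `P` -/
lemma splitcount {ι κ' : Type} [Fintype ι] [DecidableEq ι] [Fintype κ'] [DecidableEq κ'] (e : κ' → ι)
    (he : Function.Injective e) (P : Finset (κ' → ℕ)) (R : Finset ℕ) :
    ((Fintype.piFinset (fun _ : ι => R)).filter (fun y => (fun k => y (e k)) ∈ P)).card ≤
      P.card * R.card ^ (Fintype.card ι - Fintype.card κ') := by
  classical
  have h1 : ((Fintype.piFinset (fun _ : ι => R)).filter (fun y => (fun k => y (e k)) ∈ P)).card ≤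
      (P ×ˢ (Fintype.piFinset (fun _ : {i : ι // i ∉ Set.range e} => R))).card := by
    apply card_le_card_of_injOn (fun y => (fun k => y (e k), fun i => y i.1))
    · intro y hy
      rw [mem_coe, mem_filter, Fintype.mem_piFinset] at hy
      rw [mem_coe, mem_product, Fintype.mem_piFinset]
      exact ⟨hy.2, fun i => hy.1 i.1⟩
    · intro y _ y' _ h
      rw [Prod.mk.injEq] at h
      funext i
      by_cases hi : i ∈ Set.range e
      · obtain ⟨k, rfl⟩ := hi
        exact congrFun h.1 k
      · exact congrFun h.2 ⟨i, hi⟩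
  refine h1.trans (le_of_eq ?_)
  rw [card_product, Fintype.card_piFinset]
  simp only [prod_const, card_univ]
  congr 2
  rw [Fintype.card_subtype_compl]
  congr 1
  exact Set.card_range_of_injective he

end Pool.Agent.NH16.QF.ASM
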