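import Pool.Agent.NH16.QF.ASMa

set_option autoImplicit false

/-!
# Upper bounds for the main argument
-/

open Finset Filter Topology

namespace Pool.Agent.NH16.QF.ASM

open Classical in
/-- for fixed `n`: arrays with rough entries and some prime entries -/
lemma up1 {r K M H : ℕ} {z : ℝ} (n : ℕ) (I : Finset (Fin r)) (σ : Fin r → Fin K) (hI : I.card = M + 1)
    (Bad : Finset ({i // i ∈ I} → ℕ)) :
    ((Fintype.piFinset (fun _ : Option (Fin r × Fin K) => Icc 1 H)).filter (fun y =>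
      (∀ j, Rgh z (n + y j)) ∧ (∀ g ∈ I, (n + y (some (g, σ g))).Prime) ∧
        (fun i : {i // i ∈ I} => y (some (i.1, σ i.1))) ∈ Bad)).card ≤
      (Bad.filter (fun w => ∀ i, (n + w i).Prime)).card *
        ((Icc 1 H).filter (fun x => Rgh z (n + x))).card ^ (r * K - M) := by
  have he : Function.Injective (fun i : {i // i ∈ I} => (some (i.1, σ i.1) : Option (Fin r × Fin K))) := by
    intro i j h
    simp only [Option.some.injEq, Prod.mk.injEq] at h
    exact Subtype.ext h.1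
  have h1 := splitcount (fun i : {i // i ∈ I} => (some (i.1, σ i.1) : Option (Fin r × Fin K))) he
    (Bad.filter (fun w => ∀ i, (n + w i).Prime)) ((Icc 1 H).filter (fun x => Rgh z (n + x)))
  have h2 : Fintype.card (Option (Fin r × Fin K)) - Fintype.card {i // i ∈ I} = r * K - M := by
    rw [Fintype.card_option, Fintype.card_prod, Fintype.card_fin, Fintype.card_fin, Fintype.card_coe, hI]
    omega
  rw [h2] at h1
  refine le_trans (card_le_card ?_) h1
  intro y hy
  rw [mem_filter, Fintype.mem_piFinset] at hy ⊢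
  refine ⟨fun j => mem_filter.2 ⟨hy.1 j, hy.2.1 j⟩, mem_filter.2 ⟨hy.2.2.2, fun i => hy.2.2.1 i.1 i.2⟩⟩

lemma amgm {u a θ : ℝ} (ha : 0 < a) (hθ : 0 < θ) : u ≤ a / θ + θ / a * u ^ 2 := by
  have h1 : 0 ≤ (u * θ - a) ^ 2 := sq_nonneg _
  have h2 : a / θ + θ / a * u ^ 2 = (a ^ 2 + θ ^ 2 * u ^ 2) / (a * θ) := by
    field_simp
  rw [h2, le_div_iff₀ (by positivity)]
  nlinarith [sq_nonneg (u * θ), sq_nonneg a]

/-- primes in the window are rough -/
lemma prime_rgh {N m : ℕ} {δ : ℝ} (hN : 1024 < N) (hδ : δ ≤ 1 / 2) (hm : (N : ℝ) / 32 ≤ m) (hp : m.Prime) :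
    Rgh (δ * Real.log N) m := by
  intro p hpp hlog hd
  have h1 : p = m := (Nat.prime_dvd_prime_iff_eq hpp hp).1 hd
  rw [h1] at hlog
  have hN0 : (0 : ℝ) < N := by exact_mod_cast (by omega : 0 < N)
  have hN1 : (1024 : ℝ) < N := by exact_mod_cast hN
  have hL : 0 ≤ Real.log N := Real.log_natCast_nonneg N
  have h2 : Real.log ((N : ℝ) / 32) ≤ 1 / 2 * Real.log N := by
    refine (Real.log_le_log (by positivity) hm).trans (hlog.trans ?_)
    exact mul_le_mul_of_nonneg_right hδ hL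
  have h3 : 1 / 2 * Real.log N = Real.log (Real.sqrt N) := by
    rw [Real.log_sqrt hN0.le]; ring
  rw [h3] at h2
  have h4 : (N : ℝ) / 32 ≤ Real.sqrt N := by
    have := (Real.log_le_log_iff (by positivity) (Real.sqrt_pos.2 hN0)).1 h2
    exact this
  have h5 : Real.sqrt N ≤ 32 := by
    have h6 : Real.sqrt N * Real.sqrt N = N := Real.mul_self_sqrt hN0.le
    have h7 : 0 < Real.sqrt N := Real.sqrt_pos.2 hN0
    nlinarith
  have h6 : Real.sqrt N * Real.sqrt N = N := Real.mul_self_sqrt hN0.le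
  nlinarith [Real.sqrt_nonneg (N : ℝ)]

open Classical in
/-- the sum over `n` -/
lemma ups {r M H N s : ℕ} {δ C1 κ θ : ℝ} (hN : 1024 < N) (hH : 0 < H) (hδ : δ ≤ 1 / 2) (hθ : 0 < θ)
    (I : Finset (Fin r)) (hI : I.card = M + 1) (Bad : Finset ({i // i ∈ I} → ℕ))
    (hBad : ∀ w ∈ Bad, (∀ i, w i ∈ Icc 1 H) ∧
      (((Icc 1 N).filter (fun n => ∀ i, (n + w i).Prime)).card : ℝ) ≤ κ * (N / Real.log N ^ (M + 1)))
    (hκ : 0 ≤ κ)
    (hR : ∑ n ∈ Icc 1 N, (((Icc 1 H).filter (fun x => Rgh (δ * Real.log N) (n + x))).card : ℝ) ^ (M + 1 + 2 * s) ≤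
      C1 * N * ((H : ℝ) / Real.log N) ^ (M + 1 + 2 * s)) :
    ∑ n ∈ (Icc 1 N).filter (fun n : ℕ => (N : ℝ) / 32 ≤ n),
      ((Bad.filter (fun w => ∀ i, (n + w i).Prime)).card : ℝ) *
        (((Icc 1 H).filter (fun x => Rgh (δ * Real.log N) (n + x))).card : ℝ) ^ s ≤
      N * ((H : ℝ) / Real.log N) ^ (M + 1 + s) * (κ / θ + θ * C1) := by
  set L : ℝ := Real.log N with hL
  have hL0 : 0 < L := Real.log_pos (by exact_mod_cast (by omega : 1 < N))
  have hH0 : (0 : ℝ) < H := by exact_mod_cast hH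
  have hN0 : (0 : ℝ) < N := by exact_mod_cast (by omega : 0 < N)
  set ρ : ℕ → ℝ := fun n => (((Icc 1 H).filter (fun x => Rgh (δ * L) (n + x))).card : ℝ) with hρ
  set Z : ℕ → ℝ := fun n => ((Bad.filter (fun w => ∀ i, (n + w i).Prime)).card : ℝ) with hZ
  set a : ℝ := (H / L) ^ s with ha
  have ha0 : 0 < a := by positivity
  have hρ0 : ∀ n, 0 ≤ ρ n := fun n => Nat.cast_nonneg _
  have hZ0 : ∀ n, 0 ≤ Z n := fun n => Nat.cast_nonneg _
  have hZρ : ∀ n ∈ (Icc 1 N).filter (fun n : ℕ => (N : ℝ) / 32 ≤ n), Z n ≤ ρ n ^ (M + 1) := by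
    intro n hn
    have hn2 := (mem_filter.1 hn).2
    have h1 : (Bad.filter (fun w => ∀ i, (n + w i).Prime)).card ≤
        (Fintype.piFinset (fun _ : {i // i ∈ I} => (Icc 1 H).filter (fun x => Rgh (δ * L) (n + x)))).card := by
      apply card_le_card
      intro w hw
      rw [mem_filter] at hw
      rw [Fintype.mem_piFinset]
      intro i
      rw [mem_filter]
      refine ⟨(hBad w hw.1).1 i, prime_rgh hN hδ ?_ (hw.2 i)⟩
      push_cast
      have : (0 : ℝ) ≤ (w i : ℝ) := Nat.cast_nonneg _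
      linarith
    rw [Fintype.card_piFinset] at h1
    simp only [prod_const, card_univ, Fintype.card_coe, hI] at h1
    simp only [hZ, hρ]
    exact_mod_cast h1
  have hsumZ : ∑ n ∈ Icc 1 N, Z n ≤ (H : ℝ) ^ (M + 1) * (κ * (N / L ^ (M + 1))) := by
    have h1 : ∑ n ∈ Icc 1 N, Z n = ∑ w ∈ Bad, (((Icc 1 N).filter (fun n => ∀ i, (n + w i).Prime)).card : ℝ) := by
      simp only [hZ, card_filter]
      push_cast
      rw [sum_comm]
    rw [h1]
    have h2 : Bad.card ≤ H ^ (M + 1) := by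
      have h3 : Bad ⊆ Fintype.piFinset (fun _ : {i // i ∈ I} => Icc 1 H) := by
        intro w hw
        rw [Fintype.mem_piFinset]
        exact (hBad w hw).1
      refine (card_le_card h3).trans (le_of_eq ?_)
      rw [Fintype.card_piFinset]
      simp only [prod_const, card_univ, Fintype.card_coe, hI, Nat.card_Icc, add_tsub_cancel_right]
    calc ∑ w ∈ Bad, (((Icc 1 N).filter (fun n => ∀ i, (n + w i).Prime)).card : ℝ) ≤
          ∑ _w ∈ Bad, κ * (N / L ^ (M + 1)) := sum_le_sum fun w hw => (hBad w hw).2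
      _ = Bad.card * (κ * (N / L ^ (M + 1))) := by rw [sum_const, nsmul_eq_mul]
      _ ≤ _ := by
        apply mul_le_mul_of_nonneg_right _ (by positivity)
        exact_mod_cast h2
  calc ∑ n ∈ (Icc 1 N).filter (fun n : ℕ => (N : ℝ) / 32 ≤ n), Z n * ρ n ^ s
      ≤ ∑ n ∈ (Icc 1 N).filter (fun n : ℕ => (N : ℝ) / 32 ≤ n), (a / θ * Z n + θ / a * ρ n ^ (M + 1 + 2 * s)) := by
        apply sum_le_sum
        intro n hn
        have h1 := amgm (u := ρ n ^ s) ha0 hθ
        calc Z n * ρ n ^ s ≤ Z n * (a / θ + θ / a * (ρ n ^ s) ^ 2) := mul_le_mul_of_nonneg_left h1 (hZ0 n)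
          _ = a / θ * Z n + θ / a * (Z n * (ρ n ^ s) ^ 2) := by ring
          _ ≤ a / θ * Z n + θ / a * (ρ n ^ (M + 1) * (ρ n ^ s) ^ 2) := by
            have h2 : Z n * (ρ n ^ s) ^ 2 ≤ ρ n ^ (M + 1) * (ρ n ^ s) ^ 2 :=
              mul_le_mul_of_nonneg_right (hZρ n hn) (sq_nonneg _)
            have h3 : 0 ≤ θ / a := by positivity
            nlinarith [mul_le_mul_of_nonneg_left h2 h3]
          _ = _ := by
            rw [← pow_mul, ← pow_add, mul_comm s 2]
    _ ≤ ∑ n ∈ Icc 1 N, (a / θ * Z n + θ / a * ρ n ^ (M + 1 + 2 * s)) := by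
        apply sum_le_sum_of_subset_of_nonneg (filter_subset _ _)
        intro n _ _
        have := hZ0 n
        have := hρ0 n
        positivity
    _ = a / θ * ∑ n ∈ Icc 1 N, Z n + θ / a * ∑ n ∈ Icc 1 N, ρ n ^ (M + 1 + 2 * s) := by
        rw [sum_add_distrib, mul_sum, mul_sum]
    _ ≤ a / θ * ((H : ℝ) ^ (M + 1) * (κ * (N / L ^ (M + 1)))) + θ / a * (C1 * N * (H / L) ^ (M + 1 + 2 * s)) := by
        apply add_le_add
        · exact mul_le_mul_of_nonneg_left hsumZ (by positivity)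
        · exact mul_le_mul_of_nonneg_left hR (by positivity)
    _ = _ := by
        rw [ha]
        have e1 : ((H : ℝ) / L) ^ (M + 1 + 2 * s) = (H / L) ^ (M + 1) * ((H / L) ^ s) ^ 2 := by
          rw [pow_add, ← pow_mul, mul_comm s 2]
        have e2 : ((H : ℝ) / L) ^ (M + 1 + s) = (H / L) ^ (M + 1) * (H / L) ^ s := pow_add _ _ _
        have e3 : (H : ℝ) ^ (M + 1) * (κ * (N / L ^ (M + 1))) = κ * N * (H / L) ^ (M + 1) := by
          rw [div_pow]; ring
        rw [e1, e2, e3]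
        have hne : ((H : ℝ) / L) ^ s ≠ 0 := ha0.ne'
        field_simp

end Pool.Agent.NH16.QF.ASM
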