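import Pool.Agent.NH16.QF.Stm

/-!
Project QF, module QF-2 (`S_BOX`): dense sets of vectors contain many boxes.
-/

set_option autoImplicit false

open Finset

namespace Pool.Agent.NH16.QF

namespace BoxAux

/-- average over a finite type -/
noncomputable def av {α : Type} [Fintype α] (f : α → ℝ) : ℝ := (∑ a, f a) / (Fintype.card α : ℝ)

theorem av_nonneg {α : Type} [Fintype α] (f : α → ℝ) (hf : ∀ a, 0 ≤ f a) : 0 ≤ av f :=
  div_nonneg (Finset.sum_nonneg fun a _ => hf a) (Nat.cast_nonneg _)

theorem av_mono {α : Type} [Fintype α] (f g : α → ℝ) (h : ∀ a, f a ≤ g a) : av f ≤ av g :=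
  div_le_div_of_nonneg_right (Finset.sum_le_sum fun a _ => h a) (Nat.cast_nonneg _)

theorem av_equiv {α β : Type} [Fintype α] [Fintype β] (e : α ≃ β) (f : β → ℝ) :
    av (fun a => f (e a)) = av f := by
  unfold av
  rw [Fintype.card_congr e, Equiv.sum_comp e f]

theorem av_prod {α β : Type} [Fintype α] [Fintype β] (f : α × β → ℝ) :
    av f = av (fun a => av (fun b => f (a, b))) := by
  unfold av
  rw [Fintype.card_prod, Fintype.sum_prod_type, Finset.sum_div, Nat.cast_mul]
  rw [← Finset.sum_div, ← Finset.sum_div, div_div, mul_comm]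

theorem av_comm {α β : Type} [Fintype α] [Fintype β] (f : α → β → ℝ) :
    av (fun a => av (fun b => f a b)) = av (fun b => av (fun a => f a b)) := by
  unfold av
  rw [← Finset.sum_div, ← Finset.sum_div, Finset.sum_comm, div_div, div_div, mul_comm]

theorem av_pow {α : Type} [Fintype α] [Nonempty α] (f : α → ℝ) (hf : ∀ a, 0 ≤ f a) (n : ℕ) :
    (av f) ^ n ≤ av (fun a => f a ^ n) := by
  have hc : (0 : ℝ) < (Fintype.card α : ℝ) := by exact_mod_cast Fintype.card_pos
  have h := Real.pow_arith_mean_le_arith_mean_pow (Finset.univ : Finset α)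
    (fun _ => 1 / (Fintype.card α : ℝ)) f (fun _ _ => by positivity)
    (by rw [Finset.sum_const, Finset.card_univ, nsmul_eq_mul]; field_simp) (fun a _ => hf a) n
  rw [← Finset.mul_sum, ← Finset.mul_sum] at h
  unfold av
  have e : ∀ x : ℝ, x / (Fintype.card α : ℝ) = 1 / (Fintype.card α : ℝ) * x := fun x => by
    rw [div_eq_mul_one_div, mul_comm]
  have h' := h
  rw [← e, ← e] at h'
  exact h'

theorem av_pow_eq {V : Type} [Fintype V] (f : V → ℝ) (K : ℕ) :
    (av f) ^ K = av (fun w : Fin K → V => ∏ k, f (w k)) := by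
  unfold av
  rw [div_pow, Fintype.sum_pow, Fintype.card_pi]
  simp

theorem main {V : Type} [Fintype V] [Nonempty V] (K : ℕ) : ∀ (r : ℕ) (f : (Fin r → V) → ℝ),
    (∀ h, 0 ≤ f h) → (av f) ^ (K ^ r) ≤
      av (fun x : Fin r → Fin K → V => ∏ σ : Fin r → Fin K, f (fun g => x g (σ g))) := by
  intro r
  induction r with
  | zero =>
    intro f _
    rw [pow_zero, pow_one]
    apply le_of_eq
    unfold av
    simp only [Fintype.card_pi, Finset.univ_unique, Finset.sum_singleton, Finset.prod_singleton,
      Finset.univ_eq_empty, Finset.prod_empty]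
    congr 2
    exact Subsingleton.elim _ _
  | succ r ih =>
    intro f hf
    -- the average over the arrays, first coordinate split off
    have h1 : av (fun x : Fin (r + 1) → Fin K → V => ∏ σ : Fin (r + 1) → Fin K, f (fun g => x g (σ g)))
        = av (fun x' : Fin r → Fin K → V =>
          (av (fun v : V => ∏ σ' : Fin r → Fin K, f (Fin.cons v (fun g => x' g (σ' g))))) ^ K) := by
      rw [← av_equiv (Fin.consEquiv (fun _ : Fin (r + 1) => (Fin K → V))), av_prod, av_comm]
      congr 1
      funext x'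
      rw [av_pow_eq]
      congr 1
      funext w
      rw [← Equiv.prod_comp (Fin.consEquiv (fun _ : Fin (r + 1) => Fin K)), Fintype.prod_prod_type]
      refine Finset.prod_congr rfl fun k _ => Finset.prod_congr rfl fun σ' _ => ?_
      congr 1
      funext g
      refine Fin.cases ?_ (fun i => ?_) g
      · simp [Fin.consEquiv]
      · simp [Fin.consEquiv]
    have h0 : av f = av (fun v : V => av (fun h : Fin r → V => f (Fin.cons v h))) := by
      rw [← av_equiv (Fin.consEquiv (fun _ : Fin (r + 1) => V)), av_prod]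
      rfl
    rw [h1]
    have hG : ∀ (x' : Fin r → Fin K → V) (v : V),
        0 ≤ ∏ σ' : Fin r → Fin K, f (Fin.cons v (fun g => x' g (σ' g))) :=
      fun x' v => Finset.prod_nonneg fun _ _ => hf _
    refine le_trans ?_ (av_pow _ (fun x' => av_nonneg _ (hG x')) K)
    rw [pow_succ, pow_mul]
    refine pow_le_pow_left₀ (pow_nonneg (av_nonneg _ hf) _) ?_ K
    rw [av_comm, h0]
    refine le_trans (av_pow _ (fun v => av_nonneg _ (fun h => hf _)) (K ^ r)) ?_
    exact av_mono _ _ fun v => ih (fun h => f (Fin.cons v h)) (fun h => hf _)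

end BoxAux

open BoxAux

theorem t_BOX : S_BOX := by
  classical
  intro r K H D hK hH hD
  let V : Type := {v : ℕ // v ∈ Icc 1 H}
  let _ : Fintype V := inferInstanceAs (Fintype {v : ℕ // v ∈ Icc 1 H})
  have : Nonempty V := ⟨⟨1, by simp; omega⟩⟩
  have hcard : Fintype.card V = H := by
    have : Fintype.card {v : ℕ // v ∈ Icc 1 H} = (Icc 1 H).card := Fintype.card_coe _
    rw [Nat.card_Icc, Nat.add_sub_cancel] at this
    exact this
  have hH0 : (0 : ℝ) < (H : ℝ) := by exact_mod_cast hH
  let f : (Fin r → V) → ℝ := fun h => if (fun g => (h g : ℕ)) ∈ D then 1 else 0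
  have hmain := BoxAux.main K r f (fun h => by simp only [f]; split_ifs <;> norm_num)
  have e1 : av f = (D.card : ℝ) / (H : ℝ) ^ r := by
    unfold av
    rw [Fintype.card_pi]
    simp only [hcard, Finset.prod_const, Finset.card_univ, Fintype.card_fin, Nat.cast_pow]
    congr 1
    simp only [f]
    rw [Finset.sum_boole]
    congr 1
    refine Finset.card_bij (fun h _ => fun g => (h g : ℕ)) ?_ ?_ ?_
    · intro h hh
      exact (Finset.mem_filter.1 hh).2
    · intro a _ b _ hab
      funext g
      exact Subtype.ext (congrFun hab g)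
    · intro b hb
      have hb' := Fintype.mem_piFinset.1 (hD hb)
      exact ⟨fun g => ⟨b g, hb' g⟩, Finset.mem_filter.2 ⟨Finset.mem_univ _, hb⟩, rfl⟩
  have e2 : av (fun x : Fin r → Fin K → V => ∏ σ : Fin r → Fin K, f (fun g => x g (σ g))) =
      (((Fintype.piFinset (fun _ : Fin r => Fintype.piFinset (fun _ : Fin K => Icc 1 H))).filter
      (fun x : Fin r → Fin K → ℕ => ∀ σ : Fin r → Fin K, (fun g => x g (σ g)) ∈ D)).card : ℝ) /
        (H : ℝ) ^ (r * K) := by
    unfold av
    have hc2 : ((Fintype.card (Fin r → Fin K → V) : ℕ) : ℝ) = (H : ℝ) ^ (r * K) := by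
      rw [Fintype.card_pi, Fintype.card_pi]
      simp only [hcard, Finset.prod_const, Finset.card_univ, Fintype.card_fin, Nat.cast_pow]
      rw [← pow_mul, mul_comm]
    rw [hc2]
    congr 1
    have h3 : ∀ x : Fin r → Fin K → V, (∏ σ : Fin r → Fin K, f (fun g => x g (σ g))) =
        if (∀ σ : Fin r → Fin K, (fun g => (x g (σ g) : ℕ)) ∈ D) then 1 else 0 := by
      intro x
      split_ifs with hx
      · refine Finset.prod_eq_one fun σ _ => ?_
        simp only [f]
        rw [if_pos (hx σ)]
      · push Not at hx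
        obtain ⟨σ, hσ⟩ := hx
        refine Finset.prod_eq_zero (Finset.mem_univ σ) ?_
        simp only [f]
        rw [if_neg hσ]
    simp only [h3]
    rw [Finset.sum_boole]
    congr 1
    refine Finset.card_bij (fun x _ => fun g k => (x g k : ℕ)) ?_ ?_ ?_
    · intro x hx
      refine Finset.mem_filter.2 ⟨?_, (Finset.mem_filter.1 hx).2⟩
      rw [Fintype.mem_piFinset]
      intro g
      rw [Fintype.mem_piFinset]
      intro k
      exact (x g k).2
    · intro a _ b _ hab
      funext g k
      exact Subtype.ext (congrFun (congrFun hab g) k)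
    · intro b hb
      have hb1 := Fintype.mem_piFinset.1 (Finset.mem_filter.1 hb).1
      have hb2 : ∀ g k, b g k ∈ Icc 1 H := fun g k => Fintype.mem_piFinset.1 (hb1 g) k
      exact ⟨fun g k => ⟨b g k, hb2 g k⟩,
        Finset.mem_filter.2 ⟨Finset.mem_univ _, (Finset.mem_filter.1 hb).2⟩, rfl⟩
  rw [e1, e2] at hmain
  rwa [le_div_iff₀ (pow_pos hH0 _)] at hmain

end Pool.Agent.NH16.QF
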