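import Pool.Agent.NH16.QF.Stm
import Pool.Agent.H387R2.U2

/-!
# QF-6: from admissible vectors to all subsets
-/

set_option autoImplicit false

open Finset Filter Topology

namespace Pool.Agent.NH16.QF.FIN

open Pool.Agent.H387R2.Uni (CT Adm nuT locT en en_mem en_inj en_surj CT_nonneg)
open Pool.Agent.H387R2.MB (piN)

lemma card_sup (r H : ℕ) (u : Finset ℕ) (_hu : u ⊆ Icc 1 H) (hr : u.card ≤ r) :
    (((Icc 1 H).powersetCard r).filter (fun A => u ⊆ A)).card ≤ H ^ (r - u.card) := by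
  have h1 : (((Icc 1 H).powersetCard r).filter (fun A => u ⊆ A)).card ≤
      ((Icc 1 H).powersetCard (r - u.card)).card := by
    apply card_le_card_of_injOn (fun A => A \ u)
    · intro A hA
      rw [mem_coe, mem_filter, mem_powersetCard] at hA
      rw [mem_coe, mem_powersetCard]
      refine ⟨sdiff_subset.trans hA.1.1, ?_⟩
      rw [card_sdiff_of_subset hA.2, hA.1.2]
    · intro A hA B hB hAB
      rw [mem_coe, mem_filter, mem_powersetCard] at hA hB
      have h2 : A \ u ∪ u = A := sdiff_union_of_subset hA.2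
      have h3 : B \ u ∪ u = B := sdiff_union_of_subset hB.2
      have h4 : A \ u = B \ u := hAB
      rw [← h2, ← h3, h4]
  refine h1.trans ?_
  rw [card_powersetCard, Nat.card_Icc, Nat.add_sub_cancel]
  exact Nat.choose_le_pow _ _

open Classical in
lemma union_bound (r H j : ℕ) (U : Finset (Finset ℕ)) (hj : j ≤ r)
    (hU : ∀ u ∈ U, u.card = j ∧ u ⊆ Icc 1 H) (e : ℝ) (he : (U.card : ℝ) ≤ e * (H : ℝ) ^ j) :
    ((((Icc 1 H).powersetCard r).filter (fun A => ∃ u ∈ U, u ⊆ A)).card : ℝ) ≤ e * (H : ℝ) ^ r := by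
  have h1 : ((Icc 1 H).powersetCard r).filter (fun A => ∃ u ∈ U, u ⊆ A) ⊆
      U.biUnion (fun u => ((Icc 1 H).powersetCard r).filter (fun A => u ⊆ A)) := by
    intro A hA
    rw [mem_filter] at hA
    obtain ⟨hA, u, hu, huA⟩ := hA
    rw [mem_biUnion]
    exact ⟨u, hu, mem_filter.2 ⟨hA, huA⟩⟩
  have h2 : (((Icc 1 H).powersetCard r).filter (fun A => ∃ u ∈ U, u ⊆ A)).card ≤
      U.card * H ^ (r - j) := by
    refine (card_le_card h1).trans (card_biUnion_le.trans ?_)
    rw [← smul_eq_mul]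
    apply sum_le_card_nsmul
    intro u hu
    have h3 := card_sup r H u (hU u hu).2 ((hU u hu).1.le.trans hj)
    rwa [(hU u hu).1] at h3
  calc ((((Icc 1 H).powersetCard r).filter (fun A => ∃ u ∈ U, u ⊆ A)).card : ℝ)
      ≤ ((U.card * H ^ (r - j) : ℕ) : ℝ) := by exact_mod_cast h2
    _ = (U.card : ℝ) * (H : ℝ) ^ (r - j) := by push_cast; ring
    _ ≤ (e * (H : ℝ) ^ j) * (H : ℝ) ^ (r - j) := by gcongr
    _ = e * (H : ℝ) ^ r := by
      rw [mul_assoc, ← pow_add, Nat.add_sub_cancel' hj]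

lemma exists_shift (T : Finset ℕ) (hT : Adm T) (p : ℕ) (hp : p.Prime) : ∃ a : ℕ, ∀ t ∈ T, ¬ p ∣ a + t := by
  have h := hT p hp
  have h2 : ∃ c ∈ range p, c ∉ T.image (· % p) := by
    by_contra hc
    push Not at hc
    have h3 : range p ⊆ T.image (· % p) := hc
    have h4 := card_le_card h3
    rw [card_range] at h4
    unfold nuT at h
    omega
  obtain ⟨c, hc, hcT⟩ := h2
  rw [mem_range] at hc
  refine ⟨p - c, fun t ht hd => hcT ?_⟩
  rw [mem_image]
  refine ⟨t, ht, ?_⟩
  have h5 : t ≡ c [MOD p] := by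
    have h6 : (p - c + t) ≡ (p - c + c) [MOD p] := by
      have h7 : p - c + c = p := Nat.sub_add_cancel hc.le
      rw [h7]
      exact ((Nat.modEq_zero_iff_dvd.2 hd).trans (Nat.modEq_zero_iff_dvd.2 (dvd_refl p)).symm)
    exact Nat.ModEq.add_left_cancel' _ h6
  have h8 : t % p = c % p := h5
  change t % p = c
  rw [h8, Nat.mod_eq_of_lt hc]

open Classical in
lemma markov (H i : ℕ) (C C' e : ℝ) (hC' : 0 < C') (he : C ≤ e * C')
    (h : ∑ T ∈ (Icc 1 H).powersetCard i, CT T ≤ C * (H : ℝ) ^ i) :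
    ((((Icc 1 H).powersetCard i).filter (fun I => C' < CT I)).card : ℝ) ≤ e * (H : ℝ) ^ i := by
  have h1 : ((((Icc 1 H).powersetCard i).filter (fun I => C' < CT I)).card : ℝ) * C' ≤
      ∑ T ∈ (Icc 1 H).powersetCard i, CT T := by
    calc ((((Icc 1 H).powersetCard i).filter (fun I => C' < CT I)).card : ℝ) * C'
        = ∑ _T ∈ ((Icc 1 H).powersetCard i).filter (fun I => C' < CT I), C' := by
          rw [sum_const, nsmul_eq_mul]
      _ ≤ ∑ T ∈ ((Icc 1 H).powersetCard i).filter (fun I => C' < CT I), CT T :=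
          sum_le_sum fun T hT => (mem_filter.1 hT).2.le
      _ ≤ ∑ T ∈ (Icc 1 H).powersetCard i, CT T :=
          sum_le_sum_of_subset_of_nonneg (filter_subset _ _) fun T _ _ => CT_nonneg T
  have h2 : C * (H : ℝ) ^ i ≤ (e * (H : ℝ) ^ i) * C' := by
    have : (0 : ℝ) ≤ (H : ℝ) ^ i := by positivity
    nlinarith
  exact le_of_mul_le_mul_right (h1.trans (h.trans h2)) hC'

/-- the number `M_j` -/
def MM (j : ℕ) : ℕ := (5 * j - 1) / 18

lemma MM_lt {j : ℕ} (hj : 1 ≤ j) : 18 * MM j < 5 * j := by unfold MM; omega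

lemma MM_le (j : ℕ) : 5 * j ≤ 18 * (MM j + 1) := by unfold MM; omega

lemma MM_card {j : ℕ} (hj : 1 ≤ j) : MM j + 1 ≤ j := by unfold MM; omega

end Pool.Agent.NH16.QF.FIN

namespace Pool.Agent.NH16.QF

open Pool.Agent.H387R2.Uni (CT Adm nuT locT en en_mem en_inj en_surj CT_nonneg)
open Pool.Agent.H387R2.MB (piN)
open FIN

open Classical in
theorem t_FIN (hA : S_ASM) (hS : S_SNG) : S_FIN := by
  intro r ε lam hε hlam
  set e : ℝ := ε / (2 * (r + 1)) with he
  have hr0 : (0 : ℝ) < 2 * (r + 1) := by positivity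
  have hepos : 0 < e := div_pos hε hr0
  -- the constants of the assembly
  have hAj : ∀ j : ℕ, ∃ κ : ℝ, 0 < κ ∧ (1 ≤ j → ∀ᶠ N : ℕ in atTop, ∀ H : ℕ, lam * Real.log N ≤ H → 100 * H ≤ N →
      ∀ D : Finset (Fin j → ℕ), D ⊆ Fintype.piFinset (fun _ : Fin j => Icc 1 H) →
      (∀ h ∈ D, ∀ p : ℕ, p.Prime → ∃ a : ℕ, ∀ i, ¬ p ∣ a + h i) →
      (∀ h ∈ D, ∀ I : Finset (Fin j), I.card = MM j + 1 →
        (((Icc 1 N).filter (fun n => ∀ i ∈ I, (n + h i).Prime)).card : ℝ) < κ * (N / Real.log N ^ (MM j + 1))) →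
      (D.card : ℝ) ≤ e * (H : ℝ) ^ j) := by
    intro j
    by_cases hj : 1 ≤ j
    · obtain ⟨κ, hκ, h⟩ := hA j (MM j) hj (MM_lt hj) e lam hepos hlam
      exact ⟨κ, hκ, fun _ => h⟩
    · exact ⟨1, one_pos, fun h => absurd h hj⟩
  choose κf hκf hκA using hAj
  choose Cf hCf hCS using hS
  -- the bound for the singular series
  set C' : ℝ := (∑ i ∈ range (r + 1), Cf i) / e with hC'
  have hCpos : 0 < C' := div_pos (sum_pos (fun i _ => hCf i) ⟨0, mem_range.2 (Nat.succ_pos r)⟩) hepos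
  have hCle : ∀ i ∈ range (r + 1), Cf i ≤ e * C' := by
    intro i hi
    rw [hC', mul_div_cancel₀ _ hepos.ne']
    exact single_le_sum (f := Cf) (fun k _ => (hCf k).le) hi
  -- the constant
  have hne : (range (r + 1)).Nonempty := ⟨0, mem_range.2 (Nat.succ_pos r)⟩
  set κ0 : ℝ := (range (r + 1)).inf' hne κf with hκ0
  have hκ0pos : 0 < κ0 := by
    rw [hκ0, lt_inf'_iff]
    exact fun i _ => hκf i
  refine ⟨κ0 / C', div_pos hκ0pos hCpos, ?_⟩
  have hev : ∀ᶠ N : ℕ in atTop, ∀ j ∈ Icc 1 r, ∀ H : ℕ, lam * Real.log N ≤ H → 100 * H ≤ N →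
      ∀ D : Finset (Fin j → ℕ), D ⊆ Fintype.piFinset (fun _ : Fin j => Icc 1 H) →
      (∀ h ∈ D, ∀ p : ℕ, p.Prime → ∃ a : ℕ, ∀ i, ¬ p ∣ a + h i) →
      (∀ h ∈ D, ∀ I : Finset (Fin j), I.card = MM j + 1 →
        (((Icc 1 N).filter (fun n => ∀ i ∈ I, (n + h i).Prime)).card : ℝ) <
          κf j * (N / Real.log N ^ (MM j + 1))) →
      (D.card : ℝ) ≤ e * (H : ℝ) ^ j := by
    rw [Filter.eventually_all_finset]
    intro j hj
    exact hκA j (mem_Icc.1 hj).1
  filter_upwards [hev, eventually_ge_atTop 1] with N hN hN1 H hH1 hH2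
  have hlogN : 0 ≤ Real.log N := Real.log_nonneg (by exact_mod_cast hN1)
  -- the two kinds of bad sets
  set D : ∀ j : ℕ, Finset (Fin j → ℕ) := fun j =>
    (Fintype.piFinset (fun _ : Fin j => Icc 1 H)).filter (fun h => Function.Injective h ∧
      (∀ p : ℕ, p.Prime → ∃ a : ℕ, ∀ i, ¬ p ∣ a + h i) ∧
      ∀ I : Finset (Fin j), I.card = MM j + 1 →
        (((Icc 1 N).filter (fun n => ∀ i ∈ I, (n + h i).Prime)).card : ℝ) <
          κf j * (N / Real.log N ^ (MM j + 1))) with hD
  set U : ℕ → Finset (Finset ℕ) := fun j => (D j).image (fun h => univ.image h) with hU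
  set V : ℕ → Finset (Finset ℕ) := fun i => ((Icc 1 H).powersetCard i).filter (fun I => C' < CT I) with hV
  have hUb : ∀ j ∈ Icc 1 r, ((((Icc 1 H).powersetCard r).filter (fun A => ∃ u ∈ U j, u ⊆ A)).card : ℝ) ≤
      e * (H : ℝ) ^ r := by
    intro j hj
    apply union_bound r H j (U j) (mem_Icc.1 hj).2
    · intro u hu
      simp only [hU, mem_image] at hu
      obtain ⟨h, hh, rfl⟩ := hu
      simp only [hD, mem_filter, Fintype.mem_piFinset] at hh
      refine ⟨?_, ?_⟩
      · rw [card_image_of_injective _ hh.2.1, card_univ, Fintype.card_fin]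
      · intro x hx
        simp only [mem_image, mem_univ, true_and] at hx
        obtain ⟨i, rfl⟩ := hx
        exact hh.1 i
    · have h1 : ((D j).card : ℝ) ≤ e * (H : ℝ) ^ j := by
        apply hN j hj H hH1 hH2 (D j) (filter_subset _ _)
        · intro h hh
          simp only [hD, mem_filter] at hh
          exact hh.2.2.1
        · intro h hh
          simp only [hD, mem_filter] at hh
          exact hh.2.2.2
      refine le_trans ?_ h1
      exact_mod_cast card_image_le
  have hVb : ∀ i ∈ range (r + 1), ((((Icc 1 H).powersetCard r).filter (fun A => ∃ u ∈ V i, u ⊆ A)).card : ℝ) ≤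
      e * (H : ℝ) ^ r := by
    intro i hi
    apply union_bound r H i (V i) (Nat.lt_succ_iff.1 (mem_range.1 hi))
    · intro u hu
      simp only [hV, mem_filter, mem_powersetCard] at hu
      exact ⟨hu.1.2, hu.1.1⟩
    · exact markov H i (Cf i) C' e hCpos (hCle i hi) (hCS i H)
  -- the covering
  have hcov : ((Icc 1 H).powersetCard r).filter (fun A => ∃ T ⊆ A, T.Nonempty ∧ Adm T ∧
      ∀ I ⊆ T, 5 * T.card ≤ 18 * I.card →
        (piN N I : ℝ) < κ0 / C' * (CT I * (N / Real.log N ^ I.card))) ⊆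
      ((Icc 1 r).biUnion (fun j => ((Icc 1 H).powersetCard r).filter (fun A => ∃ u ∈ U j, u ⊆ A))) ∪
      ((range (r + 1)).biUnion (fun i => ((Icc 1 H).powersetCard r).filter (fun A => ∃ u ∈ V i, u ⊆ A))) := by
    intro A hA
    rw [mem_filter] at hA
    obtain ⟨hA, T, hTA, hTne, hTadm, hT⟩ := hA
    have hA' := mem_powersetCard.1 hA
    have hj1 : 1 ≤ T.card := hTne.card_pos
    have hjr : T.card ≤ r := by rw [← hA'.2]; exact card_le_card hTA
    rw [mem_union, mem_biUnion, mem_biUnion]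
    by_cases hc : ∃ I ⊆ T, I.card = MM T.card + 1 ∧ C' < CT I
    · right
      obtain ⟨I, hI, hIc, hIC⟩ := hc
      refine ⟨MM T.card + 1, mem_range.2 (Nat.lt_succ_iff.2 ((MM_card hj1).trans hjr)), ?_⟩
      rw [mem_filter]
      refine ⟨hA, I, ?_, hI.trans hTA⟩
      simp only [hV, mem_filter, mem_powersetCard]
      exact ⟨⟨(hI.trans hTA).trans hA'.1, hIc⟩, hIC⟩
    · left
      push Not at hc
      refine ⟨T.card, mem_Icc.2 ⟨hj1, hjr⟩, ?_⟩
      rw [mem_filter]
      refine ⟨hA, univ.image (en T), ?_, ?_⟩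
      · simp only [hU, mem_image]
        refine ⟨en T, ?_, rfl⟩
        simp only [hD, mem_filter, Fintype.mem_piFinset]
        refine ⟨fun i => hA'.1 (hTA (en_mem T i)), en_inj T, ?_, ?_⟩
        · intro p hp
          obtain ⟨a, ha⟩ := exists_shift T hTadm p hp
          exact ⟨a, fun i => ha _ (en_mem T i)⟩
        · intro I hI
          have hsub : I.image (en T) ⊆ T := by
            intro x hx
            obtain ⟨i, _, rfl⟩ := mem_image.1 hx
            exact en_mem T i
          have hcard : (I.image (en T)).card = MM T.card + 1 := by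
            rw [card_image_of_injective _ (en_inj T), hI]
          have h1 := hT (I.image (en T)) hsub (by rw [hcard]; exact MM_le _)
          have h2 := hc (I.image (en T)) hsub hcard
          rw [hcard] at h1
          have h3 : (((Icc 1 N).filter (fun n => ∀ i ∈ I, (n + en T i).Prime)).card : ℝ) =
              (piN N (I.image (en T)) : ℝ) := by
            unfold piN
            simp only [forall_mem_image]
          rw [h3]
          refine lt_of_lt_of_le h1 ?_
          have hX : (0 : ℝ) ≤ (N : ℝ) / Real.log N ^ (MM T.card + 1) := by positivity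
          have h4 : κ0 ≤ κf T.card := inf'_le _ (mem_range.2 (Nat.lt_succ_iff.2 hjr))
          calc κ0 / C' * (CT (I.image (en T)) * (N / Real.log N ^ (MM T.card + 1)))
              ≤ κ0 / C' * (C' * (N / Real.log N ^ (MM T.card + 1))) := by gcongr
            _ = κ0 * (N / Real.log N ^ (MM T.card + 1)) := by field_simp
            _ ≤ κf T.card * (N / Real.log N ^ (MM T.card + 1)) := by gcongr
      · intro x hx
        obtain ⟨i, _, rfl⟩ := mem_image.1 hx
        exact hTA (en_mem T i)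
  -- the final count
  have hfin : (((((Icc 1 r).biUnion (fun j => ((Icc 1 H).powersetCard r).filter (fun A => ∃ u ∈ U j, u ⊆ A))) ∪
      ((range (r + 1)).biUnion
        (fun i => ((Icc 1 H).powersetCard r).filter (fun A => ∃ u ∈ V i, u ⊆ A)))).card : ℕ) : ℝ) ≤
      ε * (H : ℝ) ^ r := by
    have h1 : ((((Icc 1 r).biUnion
        (fun j => ((Icc 1 H).powersetCard r).filter (fun A => ∃ u ∈ U j, u ⊆ A))).card : ℕ) : ℝ) ≤
        r * (e * (H : ℝ) ^ r) := by
      calc ((((Icc 1 r).biUnion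
          (fun j => ((Icc 1 H).powersetCard r).filter (fun A => ∃ u ∈ U j, u ⊆ A))).card : ℕ) : ℝ)
          ≤ ∑ j ∈ Icc 1 r, ((((Icc 1 H).powersetCard r).filter (fun A => ∃ u ∈ U j, u ⊆ A)).card : ℝ) := by
            exact_mod_cast card_biUnion_le
        _ ≤ ∑ _j ∈ Icc 1 r, e * (H : ℝ) ^ r := sum_le_sum hUb
        _ = r * (e * (H : ℝ) ^ r) := by
            rw [sum_const, Nat.card_Icc, Nat.add_sub_cancel, nsmul_eq_mul]
    have h2 : ((((range (r + 1)).biUnion
        (fun i => ((Icc 1 H).powersetCard r).filter (fun A => ∃ u ∈ V i, u ⊆ A))).card : ℕ) : ℝ) ≤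
        (r + 1) * (e * (H : ℝ) ^ r) := by
      calc ((((range (r + 1)).biUnion
          (fun i => ((Icc 1 H).powersetCard r).filter (fun A => ∃ u ∈ V i, u ⊆ A))).card : ℕ) : ℝ)
          ≤ ∑ i ∈ range (r + 1), ((((Icc 1 H).powersetCard r).filter (fun A => ∃ u ∈ V i, u ⊆ A)).card : ℝ) := by
            exact_mod_cast card_biUnion_le
        _ ≤ ∑ _i ∈ range (r + 1), e * (H : ℝ) ^ r := sum_le_sum hVb
        _ = (r + 1) * (e * (H : ℝ) ^ r) := by
            rw [sum_const, card_range, nsmul_eq_mul]; push_cast; ring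
    have h3 : (((((Icc 1 r).biUnion (fun j => ((Icc 1 H).powersetCard r).filter (fun A => ∃ u ∈ U j, u ⊆ A))) ∪
      ((range (r + 1)).biUnion
        (fun i => ((Icc 1 H).powersetCard r).filter (fun A => ∃ u ∈ V i, u ⊆ A)))).card : ℕ) : ℝ) ≤
        r * (e * (H : ℝ) ^ r) + (r + 1) * (e * (H : ℝ) ^ r) := by
      refine le_trans ?_ (add_le_add h1 h2)
      exact_mod_cast card_union_le _ _
    refine h3.trans ?_
    have h4 : 0 ≤ e * (H : ℝ) ^ r := by positivity
    have h5 : ε * (H : ℝ) ^ r = 2 * (r + 1) * (e * (H : ℝ) ^ r) := by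
      rw [he]; field_simp
    rw [h5]
    nlinarith
  refine le_trans ?_ hfin
  exact_mod_cast card_le_card hcov

end Pool.Agent.NH16.QF
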