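import Pool.Agent.NH16.QF.Stm
import Pool.Agent.NH16.BT.FLI
import Pool.Agent.NH16.SM.PS

/-!
# QF-3: moments of the number of rough integers in short intervals
-/

set_option autoImplicit false

namespace Pool.Agent.NH16.QF

open Finset Filter Topology
open scoped BigOperators
open Pool.Agent.NH16.DL Pool.Agent.NH16.SM Pool.Agent.NH16.BT

namespace RGH39

lemma pow_le_desc (ρ m : ℕ) :
    ρ ^ (m + 1) ≤ ρ.descFactorial (m + 1) + (m + 1) ^ 2 * ρ ^ m := by
  induction m with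
  | zero => simp
  | succ m ih =>
    have h1 : ρ.descFactorial (m + 1 + 1) = (ρ - (m + 1)) * ρ.descFactorial (m + 1) :=
      Nat.descFactorial_succ ρ (m + 1)
    have h2 : ρ.descFactorial (m + 1) ≤ ρ ^ (m + 1) := Nat.descFactorial_le_pow ρ (m + 1)
    have h3 : ρ ≤ (ρ - (m + 1)) + (m + 1) := by omega
    calc ρ ^ (m + 1 + 1) = ρ * ρ ^ (m + 1) := by rw [pow_succ]; ring
      _ ≤ ρ * (ρ.descFactorial (m + 1) + (m + 1) ^ 2 * ρ ^ m) := Nat.mul_le_mul_left _ ih
      _ = ρ * ρ.descFactorial (m + 1) + (m + 1) ^ 2 * ρ ^ (m + 1) := by ring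
      _ ≤ ((ρ - (m + 1)) + (m + 1)) * ρ.descFactorial (m + 1) + (m + 1) ^ 2 * ρ ^ (m + 1) := by
          gcongr
      _ = ρ.descFactorial (m + 1 + 1) + (m + 1) * ρ.descFactorial (m + 1) +
          (m + 1) ^ 2 * ρ ^ (m + 1) := by rw [h1]; ring
      _ ≤ ρ.descFactorial (m + 1 + 1) + (m + 1) * ρ ^ (m + 1) + (m + 1) ^ 2 * ρ ^ (m + 1) := by
          gcongr
      _ ≤ ρ.descFactorial (m + 1 + 1) + (m + 1 + 1) ^ 2 * ρ ^ (m + 1) := by
          nlinarith [Nat.zero_le (ρ ^ (m + 1)), Nat.zero_le m]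

lemma pow_le_choose (ρ m : ℕ) : (ρ : ℝ) ^ (m + 1) ≤
    ((m + 1).factorial : ℝ) * (ρ.choose (m + 1) : ℝ) + ((m : ℝ) + 1) ^ 2 * (ρ : ℝ) ^ m := by
  have h := pow_le_desc ρ m
  rw [Nat.descFactorial_eq_factorial_mul_choose] at h
  exact_mod_cast h

lemma Wn_one : Wn 1 = 1 := by
  unfold Wn
  have h : PP 1 = ∅ := by
    ext p
    rw [mem_PP]
    constructor
    · rintro ⟨h1, h2⟩
      have := h1.two_le
      omega
    · intro h
      exact absurd h (notMem_empty p)
  rw [h, prod_empty]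

lemma Vv_one : Vv 1 = 1 := by
  unfold Vv
  have h : PP 1 = ∅ := by
    ext p
    rw [mem_PP]
    constructor
    · rintro ⟨h1, h2⟩
      have := h1.two_le
      omega
    · intro h
      exact absurd h (notMem_empty p)
  rw [h, prod_empty]

/-- the number `n + x` is free of small primes: lower bound for the majorant -/
lemma le_gy {z : ℝ} {y m : ℕ} (hy : 1 ≤ y → Real.log y ≤ z) (h : Rgh z m) :
    gy 1 y m = (Vv y)⁻¹ := by
  unfold gy
  rw [Vv_one, one_div, if_pos]
  intro p hp hd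
  rw [mem_filter, mem_PP] at hp
  have hp0 : (0 : ℝ) < p := by exact_mod_cast hp.1.1.pos
  have h1 : Real.log p ≤ Real.log y := Real.log_le_log hp0 (by exact_mod_cast hp.1.2)
  exact h p hp.1.1 (h1.trans (hy (hp.1.1.one_lt.le.trans hp.1.2))) hd

open Classical in
/-- the upper bound for a tuple -/
lemma tuple {δ : ℝ} {q C b : ℕ} (hke : ke C b ≤ δ) {N : ℕ} (hN : 1 ≤ N)
    (hF : ∀ (a : Fin q → Bool) (u : Fin q → ℕ) (D : ℕ), D ≠ 0 →
      (∀ p : ℕ, p.Prime → 1 < p → ∀ i j, i ≠ j → p ∣ Nat.dist (u i) (u j) → p ∣ D) →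
      𝔼 t : Fin (N / Wn 1), ∏ i, (if a i = true then gy 1 (yx C b N) (u i + Wn 1 * t) else 1) ≤
        (1 + 4 * (1 / 2 : ℝ) ^ b) * sg 1 (3 ^ q) D + 1)
    (u : Fin q → ℕ) (hu : Function.Injective u) :
    (((Icc 1 N).filter (fun n => ∀ i, Rgh (δ * Real.log N) (n + u i))).card : ℝ) ≤
      N * Vv (yx C b N) ^ q * ((1 + 4 * (1 / 2 : ℝ) ^ b) * sg 1 (3 ^ q) (dsc u) + 1) := by
  have hV := Vv_pos (yx C b N)
  have hNr : (0 : ℝ) < N := by exact_mod_cast hN
  have hd0 : dsc u ≠ 0 := by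
    unfold dsc
    rw [prod_ne_zero_iff]
    intro i _
    rw [prod_ne_zero_iff]
    intro j _
    exact ed_ne _ _
  have h1 := hF (fun _ => true) (fun i => u i + 1) (dsc u) hd0 (by
    intro p hp _ i j hij hd
    have h2 : Nat.dist (u i + 1) (u j + 1) = Nat.dist (u i) (u j) := Nat.dist_add_add_right _ _ _
    rw [h2] at hd
    have h3 : ed (u i) (u j) = Nat.dist (u i) (u j) := by
      unfold ed
      rw [if_neg (fun h => hij (hu h))]
    rw [← h3] at hd
    refine hd.trans ?_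
    unfold dsc
    exact (dvd_prod_of_mem _ (mem_univ j)).trans (dvd_prod_of_mem (fun i => ∏ j, ed (u i) (u j))
      (mem_univ i)))
  rw [Fintype.expect_eq_sum_div_card, Fintype.card_fin] at h1
  simp only [if_true] at h1
  have h2 : ∑ t : Fin (N / Wn 1), ∏ i, gy 1 (yx C b N) (u i + 1 + Wn 1 * (t : ℕ)) =
      ∑ t ∈ range N, ∏ i, gy 1 (yx C b N) (u i + 1 + t) := by
    rw [Fin.sum_univ_eq_sum_range (fun t : ℕ => ∏ i, gy 1 (yx C b N) (u i + 1 + Wn 1 * t))
      (N / Wn 1), Wn_one, Nat.div_one]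
    simp only [one_mul]
  rw [h2, Wn_one, Nat.div_one, div_le_iff₀ hNr] at h1
  -- lower bound for the sum
  have h3 : (((Icc 1 N).filter (fun n => ∀ i, Rgh (δ * Real.log N) (n + u i))).card : ℝ) *
      ((Vv (yx C b N))⁻¹) ^ q ≤ ∑ t ∈ range N, ∏ i, gy 1 (yx C b N) (u i + 1 + t) := by
    have h4 : ∑ t ∈ range N, ∏ i, gy 1 (yx C b N) (u i + 1 + t) =
        ∑ n ∈ Icc 1 N, ∏ i, gy 1 (yx C b N) (n + u i) := by
      refine sum_nbij' (fun t => t + 1) (fun n => n - 1) ?_ ?_ ?_ ?_ ?_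
      · intro t ht
        rw [mem_range] at ht
        rw [mem_Icc]
        omega
      · intro n hn
        rw [mem_Icc] at hn
        rw [mem_range]
        omega
      · intro t _
        rfl
      · intro n hn
        rw [mem_Icc] at hn
        change n - 1 + 1 = n
        omega
      · intro t _
        refine prod_congr rfl fun i _ => ?_
        rw [show u i + 1 + t = t + 1 + u i by omega]
    rw [h4, ← nsmul_eq_mul, ← sum_const, sum_filter]
    refine sum_le_sum fun n _ => ?_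
    split_ifs with h5
    · refine le_of_eq ?_
      rw [prod_congr rfl fun i _ => le_gy (z := δ * Real.log N) (fun hy1 => ?_) (h5 i), prod_const,
        card_univ, Fintype.card_fin]
      have hy0 : (0 : ℝ) < (yx C b N : ℝ) := by exact_mod_cast hy1
      calc Real.log (yx C b N) ≤ Real.log ((N : ℝ) ^ ke C b) := Real.log_le_log hy0 yx_le
        _ = ke C b * Real.log N := Real.log_rpow hNr _
        _ ≤ δ * Real.log N := mul_le_mul_of_nonneg_right hke (Real.log_nonneg (by exact_mod_cast hN))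
    · exact prod_nonneg fun i _ => gy_nonneg _ _ _
  have h5 := h3.trans h1
  have h6 : (0 : ℝ) < Vv (yx C b N) ^ q := pow_pos hV q
  have h7 : ((Vv (yx C b N))⁻¹) ^ q * Vv (yx C b N) ^ q = 1 := by
    rw [← mul_pow, inv_mul_cancel₀ hV.ne', one_pow]
  calc (((Icc 1 N).filter (fun n => ∀ i, Rgh (δ * Real.log N) (n + u i))).card : ℝ) =
      (((Icc 1 N).filter (fun n => ∀ i, Rgh (δ * Real.log N) (n + u i))).card : ℝ) *
        ((Vv (yx C b N))⁻¹) ^ q * Vv (yx C b N) ^ q := by rw [mul_assoc, h7, mul_one]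
    _ ≤ (((1 + 4 * (1 / 2 : ℝ) ^ b) * sg 1 (3 ^ q) (dsc u) + 1) * N) * Vv (yx C b N) ^ q :=
        mul_le_mul_of_nonneg_right h5 h6.le
    _ = _ := by ring

/-- a set of shifts as the image of a vector -/
lemma exists_vec {H m : ℕ} (T : Finset ℕ) (hT : T ∈ (Icc 1 H).powersetCard m) :
    ∃ r : Fin m → Fin H, Function.Injective r ∧ univ.image (fun i => vl (r i)) = T := by
  rw [mem_powersetCard] at hT
  obtain ⟨h1, h2⟩ := hT
  have h3 : ∀ i : Fin m, T.orderEmbOfFin h2 i ∈ Icc 1 H := fun i =>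
    h1 (T.orderEmbOfFin_mem h2 i)
  have h4 : ∀ i : Fin m, T.orderEmbOfFin h2 i - 1 < H := fun i => by
    have := mem_Icc.1 (h3 i)
    omega
  have h5 : ∀ i : Fin m, vl (⟨T.orderEmbOfFin h2 i - 1, h4 i⟩ : Fin H) = T.orderEmbOfFin h2 i := by
    intro i
    have := mem_Icc.1 (h3 i)
    unfold vl
    simp only
    omega
  refine ⟨fun i => ⟨T.orderEmbOfFin h2 i - 1, h4 i⟩, ?_, ?_⟩
  · intro i j hij
    have h6 := congrArg vl hij
    beta_reduce at h6
    rw [h5, h5] at h6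
    exact (T.orderEmbOfFin h2).injective h6
  · simp only [h5]
    ext x
    rw [mem_image]
    constructor
    · rintro ⟨i, -, rfl⟩
      exact T.orderEmbOfFin_mem h2 i
    · intro hx
      have h7 : x ∈ Set.range (T.orderEmbOfFin h2) := by
        rw [range_orderEmbOfFin]
        exact hx
      obtain ⟨i, hi⟩ := h7
      exact ⟨i, mem_univ i, hi⟩

open Classical in
/-- the sum of the binomial coefficients -/
lemma sum_choose (q : ℕ) (δ lam : ℝ) (hδ : 0 < δ) (hlam : 0 < lam) : ∃ A : ℝ, 0 < A ∧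
    ∀ᶠ N : ℕ in atTop, ∀ H : ℕ, lam * Real.log N ≤ H →
    ∑ n ∈ Icc 1 N, ((((Icc 1 H).filter (fun x => Rgh (δ * Real.log N) (n + x))).card.choose q : ℕ) : ℝ) ≤
      A * N * ((H : ℝ) / Real.log N) ^ q := by
  obtain ⟨C, hC, hFLI⟩ := Pool.Agent.NH16.BT.FLI.main q
  obtain ⟨b, hbC, hbδ⟩ : ∃ b : ℕ, C ≤ b ∧ 1 / δ ≤ b := by
    refine ⟨max C ⌈1 / δ⌉₊, le_max_left _ _, (Nat.le_ceil _).trans ?_⟩
    exact_mod_cast le_max_right _ _
  have hb1 : (1 : ℝ) ≤ b := by exact_mod_cast hC.trans hbC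
  have hC1 : (1 : ℝ) ≤ C := by exact_mod_cast hC
  have hke : ke C b ≤ δ := by
    unfold ke
    rw [div_le_iff₀ (by positivity)]
    have h1 : 1 ≤ δ * b := by
      rw [div_le_iff₀ hδ] at hbδ
      linarith
    have h2 : (b : ℝ) ≤ C * b := by nlinarith
    have h3 : δ * b ≤ δ * (C * b) := mul_le_mul_of_nonneg_left h2 hδ.le
    have h4 : 0 ≤ δ * (C * b) := by positivity
    nlinarith
  have hke0 := ke_pos C b
  have hF := hFLI b hbC 1 one_pos 1 le_rfl
  have hVb := (yx_tendsto C b).eventually Vv_bounds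
  have hlog := yx_log C b
  set B : ℝ := (1 + 4 * (1 / 2 : ℝ) ^ b) * c1 q + 1 with hB
  have hc1 : 1 ≤ c1 q := one_le_c1 q
  have hB0 : 0 < B := by positivity
  refine ⟨(2 / ke C b) ^ q * B, by positivity, ?_⟩
  filter_upwards [hF, hVb, hlog, eventually_ge_atTop 3] with N hF hVb hlog hN H hH
  have hNr : (0 : ℝ) < N := by exact_mod_cast (by omega : 0 < N)
  have hN3 : (3 : ℝ) ≤ N := by exact_mod_cast hN
  have hL : 0 < Real.log N := Real.log_pos (by linarith)
  have hH0 : (0 : ℝ) < H := lt_of_lt_of_le (by positivity) hH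
  have hH1 : 1 ≤ H := by
    have : 0 < H := by exact_mod_cast hH0
    omega
  haveI : Nonempty (Fin q → Fin H) := ⟨fun _ => ⟨0, hH1⟩⟩
  have hV0 := Vv_pos (yx C b N)
  have hV : Vv (yx C b N) ≤ (2 / ke C b) / Real.log N := by
    have h1 : ke C b / 2 * Real.log N ≤ (Vv (yx C b N))⁻¹ := hlog.1.trans hVb.1
    rw [div_div, le_div_iff₀ (by positivity)]
    have h2 : ke C b / 2 * Real.log N * Vv (yx C b N) ≤ 1 := by
      calc ke C b / 2 * Real.log N * Vv (yx C b N) ≤ (Vv (yx C b N))⁻¹ * Vv (yx C b N) :=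
            mul_le_mul_of_nonneg_right h1 hV0.le
        _ = 1 := inv_mul_cancel₀ hV0.ne'
    linarith
  have htup := tuple (q := q) hke (by omega : 1 ≤ N) (fun a u D hD hp => (hF q le_rfl a u D hD hp).2)
  -- the vectors
  have hch : ∀ T ∈ (Icc 1 H).powersetCard q, ∃ r : Fin q → Fin H, Function.Injective r ∧
    univ.image (fun i => vl (r i)) = T := fun T hT => exists_vec T hT
  choose! ι hι1 hι2 using hch
  set Φ : (Fin q → Fin H) → ℝ := fun r => N * Vv (yx C b N) ^ q *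
    ((1 + 4 * (1 / 2 : ℝ) ^ b) * sg 1 (3 ^ q) (dsc (fun i => vl (r i))) + 1) with hΦ
  have hΦ0 : ∀ r, 0 ≤ Φ r := by
    intro r
    have : 1 ≤ sg 1 (3 ^ q) (dsc (fun i => vl (r i))) := sg_one_le (by positivity) _
    positivity
  have h1 : ∀ n ∈ Icc 1 N, ((((Icc 1 H).filter (fun x => Rgh (δ * Real.log N) (n + x))).card.choose q : ℕ) : ℝ) =
      ∑ T ∈ (Icc 1 H).powersetCard q, if (∀ x ∈ T, Rgh (δ * Real.log N) (n + x)) then (1 : ℝ) else 0 := by
    intro n _
    rw [← card_powersetCard, ← sum_filter, sum_const, nsmul_eq_mul, mul_one]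
    congr 2
    ext T
    rw [mem_powersetCard, mem_filter, mem_powersetCard]
    constructor
    · rintro ⟨h2, h3⟩
      exact ⟨⟨h2.trans (filter_subset _ _), h3⟩, fun x hx => (mem_filter.1 (h2 hx)).2⟩
    · rintro ⟨⟨h2, h3⟩, h4⟩
      exact ⟨fun x hx => mem_filter.2 ⟨h2 hx, h4 x hx⟩, h3⟩
  rw [sum_congr rfl h1, sum_comm]
  have h2 : ∀ T ∈ (Icc 1 H).powersetCard q,
      (∑ n ∈ Icc 1 N, if (∀ x ∈ T, Rgh (δ * Real.log N) (n + x)) then (1 : ℝ) else 0) ≤ Φ (ι T) := by
    intro T hT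
    rw [← sum_filter, sum_const, nsmul_eq_mul, mul_one]
    refine le_trans (le_of_eq ?_) (htup (fun i => vl (ι T i)) ?_)
    · congr 2
      refine filter_congr fun n _ => ?_
      constructor
      · intro h3 i
        have h5 : vl (ι T i) ∈ univ.image (fun i => vl (ι T i)) := mem_image_of_mem _ (mem_univ i)
        rw [hι2 T hT] at h5
        exact h3 _ h5
      · intro h3 x hx
        have h5 : x ∈ univ.image (fun i => vl (ι T i)) := by
          rw [hι2 T hT]
          exact hx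
        obtain ⟨i, -, rfl⟩ := mem_image.1 h5
        exact h3 i
    · intro i j hij
      exact hι1 T hT (vl_inj hij)
  have hinj : ∀ T ∈ (Icc 1 H).powersetCard q, ∀ T' ∈ (Icc 1 H).powersetCard q, ι T = ι T' → T = T' := by
    intro T hT T' hT' h
    calc T = univ.image (fun i => vl (ι T i)) := (hι2 T hT).symm
      _ = univ.image (fun i => vl (ι T' i)) := by rw [h]
      _ = T' := hι2 T' hT'
  have h3 : ∑ T ∈ (Icc 1 H).powersetCard q, Φ (ι T) ≤ ∑ r, Φ r := by
    rw [← sum_image (s := (Icc 1 H).powersetCard q) (g := ι) (f := Φ) (fun a ha c hc h =>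
      hinj a (mem_coe.1 ha) c (mem_coe.1 hc) h)]
    exact sum_le_sum_of_subset_of_nonneg (subset_univ _) fun _ _ _ => hΦ0 _
  have h4 : ∑ r : Fin q → Fin H, sg 1 (3 ^ q) (dsc (fun i => vl (r i))) ≤ c1 q * (H : ℝ) ^ q := by
    have h5 := Pool.Agent.NH16.SM.PS.exp_sg_dsc' (R := H) (m := q) (w := 1) hH1 le_rfl
    rw [Fintype.expect_eq_sum_div_card, Fintype.card_fun, Fintype.card_fin, Fintype.card_fin,
      div_le_iff₀ (by positivity)] at h5
    push_cast at h5
    exact h5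
  have h5 : ∑ r, Φ r ≤ N * Vv (yx C b N) ^ q * ((H : ℝ) ^ q * B) := by
    rw [hΦ, ← mul_sum, sum_add_distrib, ← mul_sum, sum_const, card_univ, Fintype.card_fun,
      Fintype.card_fin, Fintype.card_fin, nsmul_eq_mul, mul_one]
    refine mul_le_mul_of_nonneg_left ?_ (by positivity)
    push_cast
    rw [hB]
    have h6 : (0 : ℝ) ≤ 1 + 4 * (1 / 2 : ℝ) ^ b := by positivity
    have h7 := mul_le_mul_of_nonneg_left h4 h6
    nlinarith
  refine (sum_le_sum h2).trans (h3.trans (h5.trans ?_))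
  have h6 : Vv (yx C b N) ^ q ≤ ((2 / ke C b) / Real.log N) ^ q := pow_le_pow_left₀ hV0.le hV q
  calc N * Vv (yx C b N) ^ q * ((H : ℝ) ^ q * B) ≤
      N * ((2 / ke C b) / Real.log N) ^ q * ((H : ℝ) ^ q * B) := by gcongr
    _ = (2 / ke C b) ^ q * B * N * ((H : ℝ) / Real.log N) ^ q := by
        rw [div_pow, div_pow]
        ring

end RGH39

open RGH39 in
/-- QF-3 -/
theorem t_RGH : S_RGH := by
  classical
  intro q δ lam hδ hlam
  induction q with
  | zero =>
    refine ⟨1, one_pos, Filter.Eventually.of_forall fun N H _ _ => ?_⟩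
    simp
  | succ q ih =>
    obtain ⟨C, hC, hN⟩ := ih
    obtain ⟨A, hA, hN'⟩ := sum_choose (q + 1) δ lam hδ hlam
    refine ⟨((q + 1).factorial : ℝ) * A + ((q : ℝ) + 1) ^ 2 * C / lam, by positivity, ?_⟩
    filter_upwards [hN, hN', eventually_ge_atTop 3] with N hN hN' hN3 H hH hHN
    have h1 := hN H hH hHN
    have h2 := hN' H hH
    have hNr : (3 : ℝ) ≤ N := by exact_mod_cast hN3
    have hL : 0 < Real.log N := Real.log_pos (by linarith)
    have hX : lam ≤ (H : ℝ) / Real.log N := by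
      rw [le_div_iff₀ hL]
      exact hH
    have hX0 : 0 < (H : ℝ) / Real.log N := hlam.trans_le hX
    set X : ℝ := (H : ℝ) / Real.log N with hXdef
    have h3 : X ^ q ≤ X ^ (q + 1) / lam := by
      rw [le_div_iff₀ hlam, pow_succ]
      exact mul_le_mul_of_nonneg_left hX (pow_pos hX0 q).le
    calc _ ≤ ∑ n ∈ Icc 1 N, (((q + 1).factorial : ℝ) *
          ((((Icc 1 H).filter (fun x => Rgh (δ * Real.log N) (n + x))).card.choose (q + 1) : ℕ) : ℝ) +
          ((q : ℝ) + 1) ^ 2 * (((Icc 1 H).filter (fun x => Rgh (δ * Real.log N) (n + x))).card : ℝ) ^ q) :=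
            sum_le_sum fun n _ => pow_le_choose _ q
      _ ≤ ((q + 1).factorial : ℝ) * (A * N * X ^ (q + 1)) + ((q : ℝ) + 1) ^ 2 * (C * N * X ^ q) := by
          rw [sum_add_distrib, ← mul_sum, ← mul_sum]
          gcongr
      _ ≤ ((q + 1).factorial : ℝ) * (A * N * X ^ (q + 1)) +
          ((q : ℝ) + 1) ^ 2 * (C * N * (X ^ (q + 1) / lam)) := by gcongr
      _ = _ := by ring

end Pool.Agent.NH16.QF
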