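import Pool.Agent.NH16.QF.Stm
import Pool.Agent.NH16.SingAvg
import Pool.Agent.H387R2.U2

/-!
Project QF, part QF-5: the average of the singular series over the subsets of `{1, ..., H}` is bounded.
-/

set_option autoImplicit false

open Finset

namespace Pool.Agent.NH16.QF

namespace SngA

open Pool.Agent.NH16 Pool.Agent.H386R2.HL
open Pool.Agent.H387R2.Uni (CT CT_en en)

lemma ss_eq (T : Finset ℕ) (k : ℕ) (h : T.card = k) :
    singularSeries (fun i => T.orderEmbOfFin h i) = CT T := by
  subst h
  exact CT_en T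

/-- the vector of a set -/
noncomputable def vec (H r : ℕ) (T : {T // T ∈ (Icc 1 H).powersetCard (r + 1)}) :
    Fin (r + 1) → Fin H := fun i =>
  ⟨T.1.orderEmbOfFin (mem_powersetCard.1 T.2).2 i - 1, by
    have h1 := (mem_powersetCard.1 T.2).1
      (T.1.orderEmbOfFin_mem (mem_powersetCard.1 T.2).2 i)
    rw [mem_Icc] at h1
    omega⟩

lemma bx_vec (H r : ℕ) (T : {T // T ∈ (Icc 1 H).powersetCard (r + 1)}) :
    bx (vec H r T) = fun i => T.1.orderEmbOfFin (mem_powersetCard.1 T.2).2 i := by
  funext i
  have h1 := (mem_powersetCard.1 T.2).1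
    (T.1.orderEmbOfFin_mem (mem_powersetCard.1 T.2).2 i)
  rw [mem_Icc] at h1
  unfold bx vec
  simp only
  omega

lemma vec_inj (H r : ℕ) : Function.Injective (vec H r) := by
  intro T T' h
  have h1 : bx (vec H r T) = bx (vec H r T') := by rw [h]
  rw [bx_vec, bx_vec] at h1
  apply Subtype.ext
  apply Finset.coe_injective
  rw [← Finset.range_orderEmbOfFin T.1 (mem_powersetCard.1 T.2).2,
    ← Finset.range_orderEmbOfFin T'.1 (mem_powersetCard.1 T'.2).2]
  exact congrArg Set.range h1

lemma vec_i (H r : ℕ) (T : {T // T ∈ (Icc 1 H).powersetCard (r + 1)}) :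
    Function.Injective (vec H r T) := by
  intro i j h
  have h1 : bx (vec H r T) i = bx (vec H r T) j := by
    unfold bx
    rw [h]
  rw [bx_vec] at h1
  exact (T.1.orderEmbOfFin (mem_powersetCard.1 T.2).2).injective h1

end SngA

open SngA Pool.Agent.NH16 Pool.Agent.H386R2.HL in
theorem t_SNG : S_SNG := by
  classical
  intro j
  rcases j with _ | r
  · refine ⟨|Pool.Agent.H387R2.Uni.CT ∅| + 1, by positivity, fun H => ?_⟩
    rw [powersetCard_zero, sum_singleton, pow_zero, mul_one]
    have := le_abs_self (Pool.Agent.H387R2.Uni.CT ∅)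
    linarith
  · obtain ⟨C, hC1, hC⟩ := sing_avg r
    obtain ⟨C0, hC0, hsy⟩ := sy_le_log (r + 1) (by omega)
    set y : ℕ := max ⌈C⌉₊ 3 with hy
    have hy3 : 3 ≤ y := le_max_right _ _
    have hyC : C ≤ y := (Nat.le_ceil C).trans (by exact_mod_cast le_max_left _ _)
    have hlog : 0 ≤ Real.log y := Real.log_natCast_nonneg y
    have hK : 0 ≤ C * Real.log y ^ r / y := by positivity
    have hK2 : 0 ≤ (C0 * Real.log y) ^ (r + 1 - 1) := by positivity
    refine ⟨C * Real.log y ^ r / y + (C0 * Real.log y) ^ (r + 1 - 1) + 1, by linarith,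
      fun H => ?_⟩
    set F : (Fin (r + 1) → Fin H) → ℝ := fun t =>
      if Function.Injective t then singularSeries (bx t) else 0 with hF
    have hF0 : ∀ t, 0 ≤ F t := by
      intro t
      rw [hF]
      simp only
      split_ifs with h
      · refine singularSeries_nonneg ?_
        intro a b hab
        apply h
        unfold bx at hab
        apply Fin.ext
        omega
      · exact le_refl _
    have h1 : ∑ T ∈ (Icc 1 H).powersetCard (r + 1), Pool.Agent.H387R2.Uni.CT T =
        ∑ T ∈ ((Icc 1 H).powersetCard (r + 1)).attach, F (vec H r T) := by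
      rw [← Finset.sum_attach]
      refine sum_congr rfl fun T _ => ?_
      rw [hF]
      simp only
      rw [if_pos (vec_i H r T), bx_vec, ss_eq]
    have h2 : ∑ T ∈ ((Icc 1 H).powersetCard (r + 1)).attach, F (vec H r T) ≤ ∑ t, F t := by
      rw [← Finset.sum_image (f := F) (g := vec H r) fun T _ T' _ h => vec_inj H r h]
      exact Finset.sum_le_sum_of_subset_of_nonneg (subset_univ _) fun t _ _ => hF0 t
    have h3 : ∑ t, F t ≤ ∑ t : Fin (r + 1) → Fin H,
        ((if Function.Injective t then |singularSeries (bx t) - sy (bx t) y| else 0) +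
          (C0 * Real.log y) ^ (r + 1 - 1)) := by
      refine sum_le_sum fun t _ => ?_
      rw [hF]
      simp only
      split_ifs
      · have h4 := hsy y hy3 (bx t)
        have h5 := le_abs_self (singularSeries (bx t) - sy (bx t) y)
        linarith
      · linarith
    have h6 : ∑ t : Fin (r + 1) → Fin H, (C0 * Real.log y) ^ (r + 1 - 1) =
        (C0 * Real.log y) ^ (r + 1 - 1) * (H : ℝ) ^ (r + 1) := by
      rw [sum_const, card_univ, Fintype.card_fun, Fintype.card_fin, Fintype.card_fin,
        nsmul_eq_mul]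
      push_cast
      ring
    rw [sum_add_distrib, h6] at h3
    have h7 := hC y hyC H
    have h8 : (0 : ℝ) ≤ (H : ℝ) ^ (r + 1) := by positivity
    rw [h1]
    refine h2.trans (h3.trans ?_)
    rw [add_mul, add_mul, one_mul]
    linarith

end Pool.Agent.NH16.QF
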