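import Pool.Agent.NH16.QF.THM
import Pool.Agent.NH16.QF.Box
import Pool.Agent.NH16.QF.RGH
import Pool.Agent.NH16.QF.ASM
import Pool.Agent.NH16.QF.SNG
import Pool.Agent.NH16.QF.FIN

/-!
# Project QF: assembly
-/

namespace Pool.Agent.NH16.QF

theorem asm_holds : S_ASM := t_ASM t_THM t_BOX t_RGH

theorem fin_holds : S_FIN := t_FIN asm_holds t_SNG

end Pool.Agent.NH16.QF
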