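import Pool.Agent.NH16.QF.Stm
import Pool.Agent.Y827.RO.FinalR

set_option autoImplicit false

/-!
# The coloured theorem for shifts
-/

open Finset Filter Topology

namespace Pool.Agent.NH16.QF.THM

open Pool.Agent
open Pool.Agent.W25.UN Pool.Agent.W25.UB
open Pool.Agent.H442R2
open Pool.Agent.TH899.UG
open Pool.Agent.Y827.LS Pool.Agent.Y827.GS

lemma isCop {n m : ℤ} {b W : ℕ} (h : n ≡ (b : ℤ) [ZMOD (W : ℤ)]) (hn : m = n) (hb : Nat.Coprime b W) :
    IsCoprime m ((W : ℕ) : ℤ) := by
  subst hn
  have h1 : IsCoprime (b : ℤ) (W : ℤ) := Nat.isCoprime_iff_coprime.2 hb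
  obtain ⟨k, hk⟩ := h.symm.dvd
  have h2 : m = b + W * k := by linarith
  rw [h2]
  exact (IsCoprime.add_mul_left_left_iff).2 h1

open Classical in
theorem t_THM : S_THM := by
  intro r M hr hM
  have hM' : (18 / 5 : ℝ) * M < r := by
    have : (18 : ℝ) * M < 5 * r := by exact_mod_cast hM
    linarith
  obtain ⟨K, hK, δ, hδ, D₀, HH⟩ := Pool.Agent.Y827.RO.thmR r M hr hM'
  set D : ℕ := D₀ + r * K + 1 with hD
  obtain ⟨c, hc, H⟩ := HH D (by omega)
  have hW : 0 < Pool.Agent.H410R2.WW D := by
    rw [Pool.Agent.H410R2.WW]; exact prod_pos fun p hp => (mem_filter.1 hp).2.pos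
  set e : Fin r × Fin K ≃ Fin (r * K) := finProdFinEquiv with he
  have hcl : ∀ g : Fin r, (univ.filter (fun i : Fin (r * K) => (e.symm i).1 = g)).card = K := by
    intro g
    have h1 : (univ.filter (fun i : Fin (r * K) => (e.symm i).1 = g)) = (univ : Finset (Fin K)).image (fun k => e (g, k)) := by
      ext i
      rw [mem_filter, mem_image]
      constructor
      · rintro ⟨_, h⟩
        refine ⟨(e.symm i).2, mem_univ _, ?_⟩
        rw [← h, Prod.mk.eta, Equiv.apply_symm_apply]
      · rintro ⟨k, _, rfl⟩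
        exact ⟨mem_univ _, by rw [Equiv.symm_apply_apply]⟩
    rw [h1, card_image_of_injective, card_univ, Fintype.card_fin]
    intro k k' h
    have := e.injective h
    exact (Prod.mk.inj this).2
  have H1 := H (fun _ => 1) (fun i => (e.symm i).1) hcl (fun _ => trivial) (fun _ => one_ne_zero)
    (fun _ => by rw [Int.natAbs_one]; omega)
  refine ⟨K, Pool.Agent.H410R2.WW D, min δ (1 / 2), c, by omega, hW, lt_min hδ (by norm_num), min_le_right _ _, hc, ?_⟩
  filter_upwards [H1, eventually_ge_atTop 1000] with N hN hN1 x0 a x hx0 hx hne hinj hc0 hcx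
  have hN0 : (1000 : ℝ) ≤ N := by exact_mod_cast hN1
  have hL : 0 ≤ Real.log N := Real.log_natCast_nonneg N
  have hx0' : (100 : ℝ) * x0 ≤ N := by exact_mod_cast hx0
  have hx' : ∀ g k, (100 : ℝ) * x g k ≤ N := fun g k => by exact_mod_cast hx g k
  set h : Fin (r * K) → ℤ := fun i => (x (e.symm i).1 (e.symm i).2 : ℤ) - x0 with hh
  have hHB : HB h 0 N := by
    intro i
    have h1 := hx (e.symm i).1 (e.symm i).2
    simp only [hh]
    have h2 : |((0 : ℕ) : ℤ) + ((x (e.symm i).1 (e.symm i).2 : ℤ) - x0)| ≤ (x (e.symm i).1 (e.symm i).2 : ℤ) + x0 := by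
      rw [abs_le]
      constructor <;> push_cast <;> omega
    have h3 : (16 : ℤ) * |((0 : ℕ) : ℤ) + ((x (e.symm i).1 (e.symm i).2 : ℤ) - x0)| ≤
        16 * ((x (e.symm i).1 (e.symm i).2 : ℤ) + x0) := by linarith
    refine h3.trans ?_
    omega
  have hNd : Nd (fun _ => 1) h 0 := by
    intro j l hjl
    cases j with
    | none =>
      cases l with
      | none => exact absurd rfl hjl
      | some l =>
        simp only [uB, wB, hh]
        have := hne (e.symm l).1 (e.symm l).2
        push_cast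
        omega
    | some j =>
      cases l with
      | none =>
        simp only [uB, wB, hh]
        have := hne (e.symm j).1 (e.symm j).2
        push_cast
        omega
      | some l =>
        simp only [uB, wB, hh]
        have h1 : x (e.symm l).1 (e.symm l).2 ≠ x (e.symm j).1 (e.symm j).2 := by
          intro h2
          have h3 := @hinj (e.symm l) (e.symm j) h2
          exact hjl (by rw [e.symm.injective h3])
        push_cast
        omega
  have hPos : PosR (fun _ => 1) h 0 N := by
    intro i y hy1 hy2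
    simp only [hh]
    push_cast
    have : (0 : ℝ) ≤ (x (e.symm i).1 (e.symm i).2 : ℝ) := Nat.cast_nonneg _
    linarith
  have hCop : CopAt (fun _ => 1) h D 0 (a + x0) := by
    intro j n hn
    cases j with
    | none =>
      refine isCop (n := n) (b := a + x0) hn ?_ hc0
      simp only [uB, wB]
      ring
    | some i =>
      refine isCop (n := n + ((x (e.symm i).1 (e.symm i).2 : ℤ) - x0)) (b := a + x (e.symm i).1 (e.symm i).2) ?_ ?_ (hcx _ _)
      · have h1 := Int.ModEq.add_right ((x (e.symm i).1 (e.symm i).2 : ℤ) - x0) hn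
        have h2 : ((a + x0 : ℕ) : ℤ) + ((x (e.symm i).1 (e.symm i).2 : ℤ) - x0) =
            ((a + x (e.symm i).1 (e.symm i).2 : ℕ) : ℤ) := by push_cast; ring
        rw [h2] at h1
        exact h1
      · simp only [uB, wB, hh]
        push_cast
        ring
  have hmain := hN h 0 hHB hNd hPos (a + x0) hCop
  refine hmain.trans ?_
  have hcard : ((Icc 1 N).filter (fun n : ℕ => n ≡ a + x0 [MOD (Pool.Agent.H410R2.WW D)] ∧
        (N : ℝ) / 16 ≤ n ∧ (n : ℝ) ≤ N / 2 ∧
        (∀ p : ℕ, p.Prime → Real.log p ≤ δ * Real.log N → ∀ q,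
          ¬ p ∣ LZ (uB (fun _ => 1)) (wB h 0) q n) ∧
        M + 1 ≤ (univ.filter (fun g : Fin r => ∃ i, (e.symm i).1 = g ∧
          (Fm (fun _ => 1) h 0 i n).toNat.Prime)).card)).card ≤
      ((Icc 1 N).filter (fun n : ℕ => (N : ℝ) / 32 ≤ n ∧
        Rgh (min δ (1 / 2) * Real.log N) (n + x0) ∧ (∀ g k, Rgh (min δ (1 / 2) * Real.log N) (n + x g k)) ∧
        M + 1 ≤ (univ.filter (fun g : Fin r => ∃ k, (n + x g k).Prime)).card)).card := by
    have hx0n : ∀ n : ℕ, (N : ℝ) / 16 ≤ n → x0 + 1 ≤ n := by
      intro n hn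
      have : (x0 : ℝ) + 1 ≤ n := by linarith
      exact_mod_cast this
    apply card_le_card_of_injOn (fun n => n - x0)
    · intro n hn
      rw [mem_coe, mem_filter, mem_Icc] at hn
      rw [mem_coe, mem_filter, mem_Icc]
      obtain ⟨⟨hn1, hn2⟩, hn3, hn4, hn5, hn6, hn7⟩ := hn
      have hn8 := hx0n n hn4
      have hlog : ∀ p : ℕ, Real.log p ≤ min δ (1 / 2) * Real.log N → Real.log p ≤ δ * Real.log N := fun p hp =>
        hp.trans (mul_le_mul_of_nonneg_right (min_le_left _ _) hL)
      dsimp only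
      refine ⟨⟨by omega, by omega⟩, ?_, ?_, ?_, ?_⟩
      · have : ((n - x0 : ℕ) : ℝ) = (n : ℝ) - x0 := by
          rw [Nat.cast_sub (by omega)]
        rw [this]
        linarith
      · intro p hp hp2
        have h1 := hn6 p hp (hlog p hp2) none
        have h2 : LZ (uB (fun _ => 1)) (wB h 0) none n = n - x0 + x0 := by
          simp only [LZ, uB, wB]
          omega
        rwa [h2] at h1
      · intro g k p hp hp2
        have h1 := hn6 p hp (hlog p hp2) (some (e (g, k)))
        have h2 : LZ (uB (fun _ => 1)) (wB h 0) (some (e (g, k))) n = n - x0 + x g k := by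
          simp only [LZ, uB, wB, hh, Equiv.symm_apply_apply]
          omega
        rwa [h2] at h1
      · refine hn7.trans (card_le_card ?_)
        intro g hg
        rw [mem_filter] at hg ⊢
        refine ⟨mem_univ _, ?_⟩
        obtain ⟨i, hi1, hi2⟩ := hg.2
        refine ⟨(e.symm i).2, ?_⟩
        have h2 : (Fm (fun _ => 1) h 0 i n).toNat = n - x0 + x g (e.symm i).2 := by
          simp only [Fm, hh, hi1]
          omega
        rwa [h2] at hi2
    · intro n hn n' hn' hnn
      rw [mem_coe, mem_filter] at hn hn'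
      have h1 := hx0n n hn.2.2.1
      have h2 := hx0n n' hn'.2.2.1
      simp only at hnn
      omega
  have : ∀ P Q : ℕ, P ≤ Q → (P : ℝ) ≤ Q := fun P Q hPQ => by exact_mod_cast hPQ
  refine le_trans (le_of_eq ?_) (this _ _ hcard)
  congr!

end Pool.Agent.NH16.QF.THM

namespace Pool.Agent.NH16.QF

theorem t_THM : S_THM := THM.t_THM

end Pool.Agent.NH16.QF
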